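import Pool.Agent.W2helper35.AltTor.Data
set_option autoImplicit false

/-!
# The identity `6 f = 0`
-/

namespace Pool.Agent.W2helper35.AltTor
open Pool.Agent.Helper805.Nuc.Tens

/-- the sum of two tries -/
noncomputable def mrg (s : Tri) : Tri → Tri :=
  Tri.rec (motive := fun _ => Tri → Tri) (fun t => t)
    (fun c s0 s1 s2 s3 s4 s5 sm f0 f1 f2 f3 f4 f5 fm t =>
      Tri.casesOn (motive := fun _ => Tri) t (.node c s0 s1 s2 s3 s4 s5 sm)
      (fun c' t0 t1 t2 t3 t4 t5 tm =>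
        .node (Int.add c c') (f0 t0) (f1 t1) (f2 t2) (f3 t3) (f4 t4) (f5 t5) (fm tm))) s

theorem ev_mrg {R : Type} [NonUnitalNonAssocRing R] (a : ℕ → R) (s : Tri) : ∀ (t : Tri) (st : List R),
    (mrg s t).ev a st = s.ev a st + t.ev a st := by
  induction s with
  | nil => intro t st; show t.ev a st = 0 + _; rw [zero_add]
  | node c s0 s1 s2 s3 s4 s5 sm i0 i1 i2 i3 i4 i5 im =>
    intro t st
    cases t with
    | nil => show Tri.ev a (.node c s0 s1 s2 s3 s4 s5 sm) st = _ + 0; rw [add_zero]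
    | node c' t0 t1 t2 t3 t4 t5 tm =>
      show Tri.ev a (.node (c + c') (mrg s0 t0) (mrg s1 t1) (mrg s2 t2) (mrg s3 t3) (mrg s4 t4) (mrg s5 t5)
        (mrg sm tm)) st = _
      simp only [Tri.ev, i0, i1, i2, i3, i4, i5, im, add_smul]
      abel

/-- the sum of two tries with checks -/
noncomputable def mg (p q : Bool × Tri) : Bool × Tri := (p.1 && q.1, mrg p.2 q.2)

/-- all the instances of the certificate, renamed -/
noncomputable def allI (e : ℤ) (h : ℕ → ℕ) (l : List (List Inst)) : Bool × Tri :=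
  List.rec (motive := fun _ => Bool × Tri) (true, .nil) (fun i _ p => mg (addIs e h i (true, .nil)) p) l

theorem allI_ev {R : Type} [NonUnitalNonAssocRing R] (hR : IsAlt R) (a : ℕ → R) (e : ℤ) (h : ℕ → ℕ)
    (l : List (List Inst)) : (allI e h l).1 = true → (allI e h l).2.ev a [] = 0 := by
  induction l with
  | nil => intro _; rfl
  | cons i l ih =>
    intro hp
    have hp' : ((addIs e h i (true, .nil)).1 && (allI e h l).1) = true := hp
    rw [Bool.and_eq_true] at hp'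
    show (mrg (addIs e h i (true, .nil)).2 (allI e h l).2).ev a [] = 0
    rw [ev_mrg, ih hp'.2, (addIs_ev hR a e h i _ hp'.1).2, add_zero]
    rfl

/-- the contribution of one renaming -/
noncomputable def one (F : List (ℤ × T)) (C : List (List Inst)) (e : ℤ) (h : ℕ → ℕ) (p : Bool × Tri) : Bool × Tri :=
  mg (addL (Int.mul (.negSucc 5) e) h F (true, .nil)) (mg (allI e h C) p)

theorem one_ev {R : Type} [NonUnitalNonAssocRing R] (hR : IsAlt R) (a : ℕ → R) (F : List (ℤ × T))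
    (C : List (List Inst)) (e : ℤ) (h : ℕ → ℕ) (p : Bool × Tri) (hp : (one F C e h p).1 = true) : p.1 = true ∧
    (one F C e h p).2.ev a [] = (-6 * e) • evL (fun i => a (h i)) F + p.2.ev a [] := by
  have hp' : ((addL (Int.mul (.negSucc 5) e) h F (true, .nil)).1 && ((allI e h C).1 && p.1)) = true := hp
  rw [Bool.and_eq_true, Bool.and_eq_true] at hp'
  obtain ⟨h1, h2, h3⟩ := hp'
  refine ⟨h3, ?_⟩
  show (mrg (addL (Int.mul (.negSucc 5) e) h F (true, .nil)).2 (mrg (allI e h C).2 p.2)).ev a [] = _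
  have h4 := (addL_ev a _ h F _ h1).2
  rw [ev_mrg, ev_mrg, allI_ev hR a e h _ h2, h4, zero_add]
  show 0 + _ + _ = _
  rw [zero_add]; rfl

/-- a renaming of the letters -/
def hh (p q r s t u : ℕ) (i : ℕ) : ℕ :=
  match i with
  | 0 => p
  | 1 => q
  | 2 => r
  | 3 => s
  | 4 => t
  | _ => u

/-- the sum of the certificate over the eight renamings -/
noncomputable def total : Bool × Tri :=
  one F0 certs (.ofNat 1) (hh 0 1 2 3 4 5) (one F0 certs (.negSucc 0) (hh 1 0 2 3 4 5)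
  (one F0 certs (.negSucc 0) (hh 0 1 3 2 4 5) (one F0 certs (.ofNat 1) (hh 1 0 3 2 4 5)
  (one F0 certs (.negSucc 0) (hh 0 1 2 3 5 4) (one F0 certs (.ofNat 1) (hh 1 0 2 3 5 4)
  (one F0 certs (.ofNat 1) (hh 0 1 3 2 5 4) (one F0 certs (.negSucc 0) (hh 1 0 3 2 5 4) (true, .nil))))))))

theorem total_check : (total.1 && Tri.isZ total.2) = true := by decide +kernel

/-- The element `f(a_0, ..., a_5)`: the signed sum of the forty monomials of `F0` over the eight permutations of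
the indices generated by `(0 1)`, `(2 3)`, `(4 5)`. -/
noncomputable def ff {R : Type} [NonUnitalNonAssocRing R] (a : ℕ → R) : R :=
  evL (fun i => a (hh 0 1 2 3 4 5 i)) F0 - evL (fun i => a (hh 1 0 2 3 4 5 i)) F0
  - evL (fun i => a (hh 0 1 3 2 4 5 i)) F0 + evL (fun i => a (hh 1 0 3 2 4 5 i)) F0
  - evL (fun i => a (hh 0 1 2 3 5 4 i)) F0 + evL (fun i => a (hh 1 0 2 3 5 4 i)) F0
  + evL (fun i => a (hh 0 1 3 2 5 4 i)) F0 - evL (fun i => a (hh 1 0 3 2 5 4 i)) F0

theorem six_aux {R : Type} [NonUnitalNonAssocRing R] (hR : IsAlt R) (a : ℕ → R) (F : List (ℤ × T))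
    (C : List (List Inst)) (g1 g2 g3 g4 g5 g6 g7 g8 : ℕ → ℕ)
    (h0 : ((one F C (.ofNat 1) g1 (one F C (.negSucc 0) g2 (one F C (.negSucc 0) g3 (one F C (.ofNat 1) g4
      (one F C (.negSucc 0) g5 (one F C (.ofNat 1) g6 (one F C (.ofNat 1) g7 (one F C (.negSucc 0) g8
      (true, .nil))))))))).1 && Tri.isZ (one F C (.ofNat 1) g1 (one F C (.negSucc 0) g2 (one F C (.negSucc 0) g3
      (one F C (.ofNat 1) g4 (one F C (.negSucc 0) g5 (one F C (.ofNat 1) g6 (one F C (.ofNat 1) g7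
      (one F C (.negSucc 0) g8 (true, .nil))))))))).2) = true) :
    (6 : ℤ) • (evL (fun i => a (g1 i)) F - evL (fun i => a (g2 i)) F - evL (fun i => a (g3 i)) F
      + evL (fun i => a (g4 i)) F - evL (fun i => a (g5 i)) F + evL (fun i => a (g6 i)) F
      + evL (fun i => a (g7 i)) F - evL (fun i => a (g8 i)) F) = 0 := by
  rw [Bool.and_eq_true] at h0
  obtain ⟨h, hz⟩ := h0
  have hz' := Tri.ev_isZ a _ hz []
  obtain ⟨h1, e1⟩ := one_ev hR a _ _ _ _ _ h
  obtain ⟨h2, e2⟩ := one_ev hR a _ _ _ _ _ h1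
  obtain ⟨h3, e3⟩ := one_ev hR a _ _ _ _ _ h2
  obtain ⟨h4, e4⟩ := one_ev hR a _ _ _ _ _ h3
  obtain ⟨h5, e5⟩ := one_ev hR a _ _ _ _ _ h4
  obtain ⟨h6, e6⟩ := one_ev hR a _ _ _ _ _ h5
  obtain ⟨h7, e7⟩ := one_ev hR a _ _ _ _ _ h6
  obtain ⟨h8, e8⟩ := one_ev hR a _ _ _ _ _ h7
  rw [e1, e2, e3, e4, e5, e6, e7, e8] at hz'
  have hm1 : (Int.negSucc 0) = -1 := rfl
  have hp1 : (Int.ofNat 1) = 1 := rfl
  have hn : Tri.ev a Tri.nil ([] : List R) = 0 := rfl
  rw [hm1, hp1] at hz'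
  rw [← neg_eq_zero, ← hz']
  simp only [hn, mul_one, mul_neg, neg_neg, neg_smul, smul_add, smul_sub, add_zero]
  abel

theorem six_ff {R : Type} [NonUnitalNonAssocRing R] (hR : IsAlt R) (a : ℕ → R) : (6 : ℤ) • ff a = 0 :=
  six_aux hR a F0 certs _ _ _ _ _ _ _ _ total_check

end Pool.Agent.W2helper35.AltTor
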