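import Pool.Agent.Helper805.Nuc.Free
set_option autoImplicit false

/-!
# Certificates for multilinear identities in alternative rings

Monomials are binary trees `T` with leaves numbered `0, 1, 2, ...`.  A formal sum of monomials is
stored as a trie `Tri` of the postfix words of the monomials.  A certificate is a list of instances of
the linearised alternative laws in contexts.
-/

namespace Pool.Agent.W2helper35.AltTor
open Pool.Agent.Helper805.Nuc.Tens

/-- non-associative monomials in the letters `v 0, v 1, ...` -/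
inductive T
  | v : ℕ → T
  | m : T → T → T

/-- value of a monomial -/
def T.ev {R : Type} [NonUnitalNonAssocRing R] (a : ℕ → R) : T → R
  | .v i => a i
  | .m s t => s.ev a * t.ev a

/-- renaming the letters -/
noncomputable def T.ren (h : ℕ → ℕ) (t : T) : T :=
  T.rec (motive := fun _ => T) (fun i => T.v (h i)) (fun _ _ s' t' => T.m s' t') t

theorem T.ev_ren {R : Type} [NonUnitalNonAssocRing R] (a : ℕ → R) (h : ℕ → ℕ) (t : T) :
    (t.ren h).ev a = t.ev (fun i => a (h i)) := by
  induction t with
  | v i => rfl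
  | m s t ihs iht =>
    show (s.ren h).ev a * (t.ren h).ev a = _
    rw [ihs, iht]; rfl

/-- tries of words in the letters `0, ..., 5` and the multiplication sign -/
inductive Tri
  | nil : Tri
  | node : ℤ → Tri → Tri → Tri → Tri → Tri → Tri → Tri → Tri

namespace Tri

variable {R : Type} [NonUnitalNonAssocRing R]

/-- top of the stack -/
def hd : List R → R
  | [] => 0
  | x :: _ => x
/-- multiplication of the two top entries of the stack -/
def mulTop : List R → List R
  | x :: y :: st => (y * x) :: st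
  | _ => []

/-- evaluation of a trie at a stack -/
noncomputable def ev (a : ℕ → R) : Tri → List R → R
  | nil, _ => 0
  | node c t0 t1 t2 t3 t4 t5 tm, st =>
    c • hd st + ev a t0 (a 0 :: st) + ev a t1 (a 1 :: st) + ev a t2 (a 2 :: st) + ev a t3 (a 3 :: st) +
      ev a t4 (a 4 :: st) + ev a t5 (a 5 :: st) + ev a tm (mulTop st)

/-- one step of the stack machine -/
def step (a : ℕ → R) (s : ℕ) (st : List R) : List R :=
  match s with
  | 0 => mulTop st
  | i + 1 => a i :: st

/-- the stack machine -/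
def run (a : ℕ → R) : List ℕ → List R → List R
  | [], st => st
  | s :: p, st => run a p (step a s st)

/-- the trie obtained from `t` by replacing the child with number `s` -/
def upd (f : Tri → Tri) (s : ℕ) (c : ℤ) (t0 t1 t2 t3 t4 t5 tm : Tri) : Tri :=
  match s with
  | 0 => node c t0 t1 t2 t3 t4 t5 (f tm)
  | 1 => node c (f t0) t1 t2 t3 t4 t5 tm
  | 2 => node c t0 (f t1) t2 t3 t4 t5 tm
  | 3 => node c t0 t1 (f t2) t3 t4 t5 tm
  | 4 => node c t0 t1 t2 (f t3) t4 t5 tm
  | 5 => node c t0 t1 t2 t3 (f t4) t5 tm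
  | 6 => node c t0 t1 t2 t3 t4 (f t5) tm
  | _ + 7 => node c t0 t1 t2 t3 t4 t5 tm

/-- insertion of the word `p` with coefficient `k` -/
noncomputable def ins (k : ℤ) (p : List ℕ) : Tri → Tri :=
  List.rec (motive := fun _ => Tri → Tri)
    (fun t => Tri.casesOn (motive := fun _ => Tri) t (node k nil nil nil nil nil nil nil)
      (fun c t0 t1 t2 t3 t4 t5 tm => node (Int.add c k) t0 t1 t2 t3 t4 t5 tm))
    (fun s _ f t => Tri.casesOn (motive := fun _ => Tri) t (upd f s (Int.ofNat 0) nil nil nil nil nil nil nil)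
      (fun c t0 t1 t2 t3 t4 t5 tm => upd f s c t0 t1 t2 t3 t4 t5 tm)) p

/-- words in the alphabet `0, ..., 6` -/
def okw (p : List ℕ) : Prop := ∀ s ∈ p, s < 7

theorem ev_ins (a : ℕ → R) (k : ℤ) (p : List ℕ) : okw p → ∀ (t : Tri) (st : List R),
    ev a (ins k p t) st = ev a t st + k • hd (run a p st) := by
  induction p with
  | nil =>
    intro _ t st
    cases t with
    | nil =>
      show ev a (node k nil nil nil nil nil nil nil) st = _
      simp [ev, run]
    | node c t0 t1 t2 t3 t4 t5 tm =>
      show ev a (node (c + k) t0 t1 t2 t3 t4 t5 tm) st = _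
      simp only [ev, run, add_smul]
      abel
  | cons s p ih =>
    intro hp t st
    have hs : s < 7 := hp s (List.mem_cons_self ..)
    have ih' := ih (fun s hs => hp s (List.mem_cons_of_mem _ hs))
    cases t with
    | nil =>
      show ev a (upd (ins k p) s 0 nil nil nil nil nil nil nil) st = _
      interval_cases s <;> simp [upd, ev, ih', run, step]
    | node c t0 t1 t2 t3 t4 t5 tm =>
      show ev a (upd (ins k p) s c t0 t1 t2 t3 t4 t5 tm) st = _
      interval_cases s <;> simp only [upd, ev, ih', run, step] <;> abel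

/-- is this integer zero? -/
def isz : ℤ → Bool
  | .ofNat n => Nat.beq n 0
  | .negSucc _ => false

/-- is this the zero trie? -/
noncomputable def isZ (s : Tri) : Bool :=
  Tri.rec (motive := fun _ => Bool) true
    (fun k _ _ _ _ _ _ _ i0 i1 i2 i3 i4 i5 im =>
      isz k && (i0 && (i1 && (i2 && (i3 && (i4 && (i5 && im))))))) s

theorem ev_isZ (a : ℕ → R) (s : Tri) : isZ s = true → ∀ st : List R, ev a s st = 0 := by
  induction s with
  | nil => intro _ st; rfl
  | node k t0 t1 t2 t3 t4 t5 tm i0 i1 i2 i3 i4 i5 im =>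
    intro h st
    have h' : (isz k && (isZ t0 && (isZ t1 && (isZ t2 && (isZ t3 && (isZ t4 && (isZ t5 && isZ tm))))))) = true := h
    simp only [Bool.and_eq_true] at h'
    obtain ⟨hk, h0, h1, h2, h3, h4, h5, hm⟩ := h'
    have hk0 : k = 0 := by
      cases k with
      | ofNat n => have := Nat.eq_of_beq_eq_true hk; subst this; rfl
      | negSucc n => simp [isz] at hk
    rw [ev, i0 h0, i1 h1, i2 h2, i3 h3, i4 h4, i5 h5, im hm, hk0]
    simp

end Tri

/-- the postfix word of a monomial, followed by `p` -/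
noncomputable def T.post (t : T) : List ℕ → List ℕ :=
  T.rec (motive := fun _ => List ℕ → List ℕ) (fun i p => (i + 1) :: p) (fun _ _ f g p => f (g (0 :: p))) t

theorem T.run_post {R : Type} [NonUnitalNonAssocRing R] (a : ℕ → R) (t : T) : ∀ (p : List ℕ) (st : List R),
    Tri.run a (t.post p) st = Tri.run a p (t.ev a :: st) := by
  induction t with
  | v i => intro p st; rfl
  | m s t ihs iht =>
    intro p st
    show Tri.run a (s.post (t.post (0 :: p))) st = _
    rw [ihs, iht]; rfl

/-- all letters are less than `6` -/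
noncomputable def T.ok (t : T) : Bool :=
  T.rec (motive := fun _ => Bool) (fun i => Nat.blt i 6) (fun _ _ f g => f && g) t

theorem T.ok_post (t : T) : t.ok = true → ∀ p, Tri.okw p → Tri.okw (t.post p) := by
  induction t with
  | v i =>
    intro h p hp s hs
    have h' : i < 6 := by simpa [T.ok, Nat.blt_eq] using h
    have hs' : s ∈ (i + 1) :: p := hs
    rcases List.mem_cons.1 hs' with rfl | h1
    · omega
    · exact hp s h1
  | m s t ihs iht =>
    intro h p hp
    have h' : (s.ok && t.ok) = true := h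
    rw [Bool.and_eq_true] at h'
    exact ihs h'.1 _ (iht h'.2 _ (by
      intro x hx
      rcases List.mem_cons.1 hx with rfl | h1
      · omega
      · exact hp x h1))

/-- insertion of a monomial (if it has only the letters `0, ..., 5`), and a check -/
noncomputable def addT (k : ℤ) (t : T) (p : Bool × Tri) : Bool × Tri :=
  (p.1 && t.ok, Tri.ins k (t.post []) p.2)

theorem addT_ev {R : Type} [NonUnitalNonAssocRing R] (a : ℕ → R) (k : ℤ) (t : T) (p : Bool × Tri)
    (h : (addT k t p).1 = true) : p.1 = true ∧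
    (addT k t p).2.ev a [] = p.2.ev a [] + k • t.ev a := by
  have h' : (p.1 && t.ok) = true := h
  rw [Bool.and_eq_true] at h'
  refine ⟨h'.1, ?_⟩
  show Tri.ev a (Tri.ins k (t.post []) p.2) [] = _
  rw [Tri.ev_ins a k _ (t.ok_post h'.2 _ (by intro s hs; simp at hs)), T.run_post]
  rfl

/-- an instance of a linearised alternative law: `(x,y,z) + (y,x,z)` if `ty` is true and
`(x,y,z) + (x,z,y)` if `ty` is false, in the context `ctx`, with coefficient `k` -/
structure Inst where
  k : ℤ
  ty : Bool
  ctx : List (Bool × T)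
  x : T
  y : T
  z : T

/-- put a monomial into a context -/
def cx : List (Bool × T) → T → T
  | [], t => t
  | (true, u) :: l, t => cx l (.m t u)
  | (false, u) :: l, t => cx l (.m u t)

/-- the same for elements of a ring -/
def cxe {R : Type} [NonUnitalNonAssocRing R] (a : ℕ → R) : List (Bool × T) → R → R
  | [], r => r
  | (true, u) :: l, r => cxe a l (r * u.ev a)
  | (false, u) :: l, r => cxe a l (u.ev a * r)

theorem cx_ev {R : Type} [NonUnitalNonAssocRing R] (a : ℕ → R) (l : List (Bool × T)) :
    ∀ t : T, (cx l t).ev a = cxe a l (t.ev a) := by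
  induction l with
  | nil => intro t; rfl
  | cons q l ih =>
    intro t
    obtain ⟨b, u⟩ := q
    cases b with
    | true => exact ih _
    | false => exact ih _

theorem cxe_add {R : Type} [NonUnitalNonAssocRing R] (a : ℕ → R) (l : List (Bool × T)) :
    ∀ r s : R, cxe a l (r + s) = cxe a l r + cxe a l s := by
  induction l with
  | nil => intro r s; rfl
  | cons q l ih =>
    intro r s
    obtain ⟨b, u⟩ := q
    cases b with
    | true =>
      show cxe a l ((r + s) * u.ev a) = cxe a l (r * u.ev a) + cxe a l (s * u.ev a)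
      rw [add_mul, ih]
    | false =>
      show cxe a l (u.ev a * (r + s)) = cxe a l (u.ev a * r) + cxe a l (u.ev a * s)
      rw [mul_add, ih]

/-- adding an instance, with letters renamed by `h`, times the sign `e` -/
noncomputable def addI (e : ℤ) (h : ℕ → ℕ) (i : Inst) (p : Bool × Tri) : Bool × Tri :=
  let k := Int.mul e i.k
  let n := Int.neg k
  Bool.rec
    (addT k (T.ren h (cx i.ctx (.m (.m i.x i.y) i.z))) (addT n (T.ren h (cx i.ctx (.m i.x (.m i.y i.z))))
      (addT k (T.ren h (cx i.ctx (.m (.m i.x i.z) i.y))) (addT n (T.ren h (cx i.ctx (.m i.x (.m i.z i.y)))) p))))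
    (addT k (T.ren h (cx i.ctx (.m (.m i.x i.y) i.z))) (addT n (T.ren h (cx i.ctx (.m i.x (.m i.y i.z))))
      (addT k (T.ren h (cx i.ctx (.m (.m i.y i.x) i.z))) (addT n (T.ren h (cx i.ctx (.m i.y (.m i.x i.z)))) p))))
    i.ty

theorem addI_ev {R : Type} [NonUnitalNonAssocRing R] (hR : IsAlt R) (a : ℕ → R) (e : ℤ) (h : ℕ → ℕ) (i : Inst)
    (p : Bool × Tri) (hp : (addI e h i p).1 = true) : p.1 = true ∧ (addI e h i p).2.ev a [] = p.2.ev a [] := by
  obtain ⟨k, ty, ctx, x, y, z⟩ := i
  have key : ∀ (b : ℕ → R) (u1 u2 u3 u4 : T), u1.ev b - u2.ev b + u3.ev b - u4.ev b = 0 →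
      cxe b ctx (u1.ev b) - cxe b ctx (u2.ev b) + cxe b ctx (u3.ev b) - cxe b ctx (u4.ev b) = 0 := by
    intro b u1 u2 u3 u4 h1
    have h2 : u1.ev b + u3.ev b = u2.ev b + u4.ev b := by
      rw [← sub_eq_zero, ← h1]; abel
    have h3 := congrArg (cxe b ctx) h2
    rw [cxe_add, cxe_add] at h3
    rw [← sub_eq_zero] at h3
    rw [← h3]; abel
  cases ty with
  | false =>
    have hp' : (addT (e * k) (T.ren h (cx ctx (.m (.m x y) z))) (addT (-(e * k)) (T.ren h (cx ctx (.m x (.m y z))))
      (addT (e * k) (T.ren h (cx ctx (.m (.m x z) y))) (addT (-(e * k)) (T.ren h (cx ctx (.m x (.m z y)))) p)))).1 = true := hp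
    obtain ⟨h1, e1⟩ := addT_ev a _ _ _ hp'
    obtain ⟨h2, e2⟩ := addT_ev a _ _ _ h1
    obtain ⟨h3, e3⟩ := addT_ev a _ _ _ h2
    obtain ⟨h4, e4⟩ := addT_ev a _ _ _ h3
    refine ⟨h4, ?_⟩
    refine e1.trans ?_
    rw [e2, e3, e4]
    simp only [T.ev_ren, cx_ev]
    have h5 := key (fun i => a (h i)) (.m (.m x y) z) (.m x (.m y z)) (.m (.m x z) y) (.m x (.m z y)) (by
      have := hR.as_right (x.ev fun i => a (h i)) (y.ev fun i => a (h i)) (z.ev fun i => a (h i))
      unfold as at this
      simp only [T.ev]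
      rw [← sub_eq_zero] at this
      rw [← this]; abel)
    rw [add_assoc, add_assoc, add_assoc, add_eq_left, neg_smul, neg_smul, ← smul_neg, ← smul_neg, ← smul_add,
      ← smul_add, ← smul_add]
    have h6 : ∀ w : R, w = 0 → (e * k) • w = 0 := by rintro w rfl; exact smul_zero _
    apply h6
    rw [← h5]; abel
  | true =>
    have hp' : (addT (e * k) (T.ren h (cx ctx (.m (.m x y) z))) (addT (-(e * k)) (T.ren h (cx ctx (.m x (.m y z))))
      (addT (e * k) (T.ren h (cx ctx (.m (.m y x) z))) (addT (-(e * k)) (T.ren h (cx ctx (.m y (.m x z)))) p)))).1 = true := hp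
    obtain ⟨h1, e1⟩ := addT_ev a _ _ _ hp'
    obtain ⟨h2, e2⟩ := addT_ev a _ _ _ h1
    obtain ⟨h3, e3⟩ := addT_ev a _ _ _ h2
    obtain ⟨h4, e4⟩ := addT_ev a _ _ _ h3
    refine ⟨h4, ?_⟩
    refine e1.trans ?_
    rw [e2, e3, e4]
    simp only [T.ev_ren, cx_ev]
    have h5 := key (fun i => a (h i)) (.m (.m x y) z) (.m x (.m y z)) (.m (.m y x) z) (.m y (.m x z)) (by
      have := hR.as_left (x.ev fun i => a (h i)) (y.ev fun i => a (h i)) (z.ev fun i => a (h i))
      unfold as at this
      simp only [T.ev]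
      rw [← sub_eq_zero] at this
      rw [← this]; abel)
    rw [add_assoc, add_assoc, add_assoc, add_eq_left, neg_smul, neg_smul, ← smul_neg, ← smul_neg, ← smul_add,
      ← smul_add, ← smul_add]
    have h6 : ∀ w : R, w = 0 → (e * k) • w = 0 := by rintro w rfl; exact smul_zero _
    apply h6
    rw [← h5]; abel

/-- adding a list of instances -/
noncomputable def addIs (e : ℤ) (h : ℕ → ℕ) (l : List Inst) : Bool × Tri → Bool × Tri :=
  List.rec (motive := fun _ => Bool × Tri → Bool × Tri) (fun p => p) (fun i _ f p => f (addI e h i p)) l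

theorem addIs_ev {R : Type} [NonUnitalNonAssocRing R] (hR : IsAlt R) (a : ℕ → R) (e : ℤ) (h : ℕ → ℕ)
    (l : List Inst) : ∀ p : Bool × Tri, (addIs e h l p).1 = true →
      p.1 = true ∧ (addIs e h l p).2.ev a [] = p.2.ev a [] := by
  induction l with
  | nil => intro p hp; exact ⟨hp, rfl⟩
  | cons i l ih =>
    intro p hp
    obtain ⟨h1, h2⟩ := ih (addI e h i p) hp
    obtain ⟨h3, h4⟩ := addI_ev hR a e h i p h1
    exact ⟨h3, h2.trans h4⟩

/-- value of a formal sum -/
noncomputable def evL {R : Type} [NonUnitalNonAssocRing R] (a : ℕ → R) : List (ℤ × T) → R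
  | [] => 0
  | q :: l => q.1 • q.2.ev a + evL a l

/-- adding a formal sum, with letters renamed by `h`, times the integer `e` -/
noncomputable def addL (e : ℤ) (h : ℕ → ℕ) (l : List (ℤ × T)) : Bool × Tri → Bool × Tri :=
  List.rec (motive := fun _ => Bool × Tri → Bool × Tri) (fun p => p)
    (fun q _ f p => f (addT (Int.mul e q.1) (T.ren h q.2) p)) l

theorem addL_ev {R : Type} [NonUnitalNonAssocRing R] (a : ℕ → R) (e : ℤ) (h : ℕ → ℕ)
    (l : List (ℤ × T)) : ∀ p : Bool × Tri, (addL e h l p).1 = true →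
      p.1 = true ∧ (addL e h l p).2.ev a [] = p.2.ev a [] + e • evL (fun i => a (h i)) l := by
  induction l with
  | nil => intro p hp; refine ⟨hp, ?_⟩; show _ = _ + e • (0 : R); rw [smul_zero, add_zero]; rfl
  | cons q l ih =>
    intro p hp
    obtain ⟨h1, h2⟩ := ih (addT (Int.mul e q.1) (T.ren h q.2) p) hp
    obtain ⟨h3, h4⟩ := addT_ev a _ _ _ h1
    refine ⟨h3, h2.trans ?_⟩
    rw [h4, T.ev_ren]
    show _ + (e * q.1) • _ + _ = _ + e • (q.1 • q.2.ev (fun i => a (h i)) + evL (fun i => a (h i)) l)
    rw [smul_add, mul_smul]; abel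

end Pool.Agent.W2helper35.AltTor
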