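import Pool.Agent.W2helper35.AltTor.Core
set_option autoImplicit false
set_option maxRecDepth 100000

/-!
# Certificate data, found by computer

`la, ..., lf` are the letters `0, ..., 5`.  `F0` is a formal sum of forty monomials; the lists
`cert0, ...` are instances of the linearised alternative laws.
-/

namespace Pool.Agent.W2helper35.AltTor

/-- a letter -/
def la : T := .v 0
/-- a letter -/
def lb : T := .v 1
/-- a letter -/
def lc : T := .v 2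
/-- a letter -/
def ld : T := .v 3
/-- a letter -/
def le : T := .v 4
/-- a letter -/
def lf : T := .v 5

/-- the formal sum of forty monomials -/
def F0 : List (ℤ × T) := [
  (.ofNat 1, (.m le (.m la (.m lc (.m ld (.m lb lf)))))),
  (.negSucc 0, (.m le (.m (.m la (.m lc (.m ld lb))) lf))),
  (.negSucc 0, (.m le (.m la (.m lb (.m lc (.m ld lf)))))),
  (.ofNat 1, (.m le (.m la (.m lc (.m (.m lb ld) lf))))),
  (.ofNat 1, (.m le (.m (.m la (.m lb (.m lc ld))) lf))),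
  (.negSucc 0, (.m (.m la (.m lc (.m ld (.m lb le)))) lf)),
  (.ofNat 1, (.m (.m la (.m le (.m lb (.m lc ld)))) lf)),
  (.negSucc 0, (.m le (.m la (.m lc (.m lb (.m ld lf)))))),
  (.ofNat 1, (.m (.m la (.m lc (.m le (.m ld lb)))) lf)),
  (.negSucc 0, (.m (.m la (.m lc (.m lb (.m ld le)))) lf)),
  (.ofNat 1, (.m lc (.m la (.m le (.m (.m lb ld) lf))))),
  (.negSucc 0, (.m lc (.m le (.m la (.m (.m lb ld) lf))))),
  (.ofNat 1, (.m lc (.m le (.m la (.m lb (.m ld lf)))))),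
  (.negSucc 0, (.m lc (.m (.m la (.m le (.m lb ld))) lf))),
  (.negSucc 0, (.m lc (.m (.m la (.m ld (.m lb le))) lf))),
  (.ofNat 1, (.m lc (.m (.m la (.m lb (.m le ld))) lf))),
  (.negSucc 0, (.m lc (.m ld (.m la (.m (.m lb le) lf))))),
  (.negSucc 0, (.m lc (.m ld (.m le (.m (.m la lb) lf))))),
  (.ofNat 1, (.m lc (.m ld (.m le (.m la (.m lb lf)))))),
  (.ofNat 1, (.m lc (.m (.m la (.m ld (.m le lb))) lf))),
  (.negSucc 0, (.m lc (.m la (.m ld (.m le (.m lb lf)))))),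
  (.ofNat 1, (.m le (.m lc (.m ld (.m (.m la lb) lf))))),
  (.negSucc 0, (.m le (.m lc (.m ld (.m la (.m lb lf)))))),
  (.ofNat 1, (.m (.m la (.m le (.m lc (.m lb ld)))) lf)),
  (.ofNat 1, (.m la (.m lc (.m ld (.m (.m lb le) lf))))),
  (.negSucc 0, (.m la (.m (.m lb (.m lc (.m ld le))) lf))),
  (.negSucc 0, (.m lc (.m la (.m lb (.m le (.m ld lf)))))),
  (.negSucc 0, (.m (.m la (.m lb (.m le (.m lc ld)))) lf)),
  (.ofNat 1, (.m (.m la (.m lc (.m ld (.m le lb)))) lf)),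
  (.negSucc 0, (.m la (.m lc (.m le (.m ld (.m lb lf)))))),
  (.negSucc 0, (.m la (.m lc (.m ld (.m le (.m lb lf)))))),
  (.ofNat 1, (.m lc (.m la (.m ld (.m lb (.m le lf)))))),
  (.negSucc 0, (.m la (.m le (.m lc (.m (.m lb ld) lf))))),
  (.ofNat 1, (.m la (.m lb (.m lc (.m le (.m ld lf)))))),
  (.ofNat 1, (.m la (.m (.m lb (.m le (.m lc ld))) lf))),
  (.ofNat 1, (.m la (.m lc (.m lb (.m ld (.m le lf)))))),
  (.ofNat 1, (.m la (.m lb (.m lc (.m ld (.m le lf)))))),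
  (.negSucc 0, (.m la (.m le (.m lb (.m lc (.m ld lf)))))),
  (.ofNat 1, (.m lc (.m ld (.m la (.m lb (.m le lf)))))),
  (.negSucc 0, (.m (.m la (.m lb (.m lc (.m le ld)))) lf))]

/-- part 0 of the certificate -/
def cert0 : List Inst := [
  ⟨.negSucc 1, true, [(false, la)], lc, (.m (.m ld le) lf), lb⟩,
  ⟨.ofNat 4, true, [(true, (.m lb lf))], le, (.m lc la), ld⟩,
  ⟨.negSucc 1, true, [(true, lb), (false, ld), (false, lc)], le, la, lf⟩,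
  ⟨.ofNat 2, true, [], le, (.m lc (.m la ld)), (.m lb lf)⟩,
  ⟨.negSucc 1, true, [(false, (.m la lc))], le, ld, (.m lb lf)⟩,
  ⟨.negSucc 3, false, [], (.m lc (.m la ld)), le, (.m lb lf)⟩,
  ⟨.negSucc 1, false, [(false, le), (false, (.m lc ld))], la, lf, lb⟩,
  ⟨.ofNat 4, true, [(true, lf)], la, (.m le (.m lc lb)), ld⟩,
  ⟨.ofNat 4, false, [(false, lc)], la, le, (.m ld (.m lb lf))⟩,
  ⟨.negSucc 3, true, [(false, (.m lb lc)), (false, la)], le, ld, lf⟩,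
  ⟨.ofNat 4, true, [], (.m lc la), (.m (.m lb ld) le), lf⟩,
  ⟨.negSucc 1, false, [(false, (.m la lc))], le, ld, (.m lb lf)⟩,
  ⟨.negSucc 5, true, [(true, lf)], lc, (.m la le), (.m ld lb)⟩,
  ⟨.negSucc 3, false, [(true, lf)], lc, la, (.m (.m lb ld) le)⟩,
  ⟨.negSucc 1, true, [(true, ld), (false, (.m la lb))], le, lc, lf⟩,
  ⟨.ofNat 6, true, [], lc, la, (.m le (.m lb (.m ld lf)))⟩,
  ⟨.ofNat 7, true, [(false, le)], lc, (.m la ld), (.m lb lf)⟩,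
  ⟨.negSucc 1, true, [(true, lb), (true, lf)], lc, la, (.m ld le)⟩,
  ⟨.ofNat 6, false, [(false, lc), (false, la), (true, lf)], lb, le, ld⟩,
  ⟨.ofNat 4, true, [(false, la)], le, (.m lc (.m ld lb)), lf⟩,
  ⟨.negSucc 3, true, [(false, lc), (true, lf), (false, le)], ld, la, lb⟩,
  ⟨.ofNat 2, false, [(false, (.m lc ld))], le, la, (.m lf lb)⟩,
  ⟨.ofNat 2, false, [(false, la), (false, lc)], lb, le, (.m ld lf)⟩,
  ⟨.negSucc 11, false, [(false, lc)], la, le, (.m (.m lb ld) lf)⟩,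
  ⟨.ofNat 2, false, [], la, lc, (.m (.m ld (.m le lf)) lb)⟩,
  ⟨.ofNat 4, false, [(true, lf), (false, le)], lc, ld, (.m la lb)⟩,
  ⟨.ofNat 2, false, [(true, lf)], (.m lc (.m la ld)), le, lb⟩,
  ⟨.ofNat 6, true, [(false, lc)], la, (.m le lb), (.m ld lf)⟩,
  ⟨.ofNat 2, false, [], la, le, (.m (.m lc lb) (.m ld lf))⟩,
  ⟨.ofNat 2, true, [(true, (.m ld lf))], lc, la, (.m le lb)⟩,
  ⟨.negSucc 1, true, [(true, (.m le lf)), (false, lc)], ld, la, lb⟩,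
  ⟨.negSucc 1, false, [(false, (.m la lc))], le, ld, (.m lf lb)⟩,
  ⟨.ofNat 4, true, [], la, (.m lc (.m ld (.m le lb))), lf⟩,
  ⟨.negSucc 4, true, [(false, la), (false, le)], lc, (.m ld lb), lf⟩,
  ⟨.negSucc 5, true, [(false, lc)], le, la, (.m lb (.m ld lf))⟩,
  ⟨.negSucc 3, true, [(false, lc)], la, (.m (.m ld lb) le), lf⟩,
  ⟨.ofNat 6, true, [(false, le), (false, (.m la lc))], ld, lb, lf⟩,
  ⟨.negSucc 0, true, [(false, le)], la, (.m lb lc), (.m ld lf)⟩,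
  ⟨.ofNat 4, true, [], la, (.m lb lc), (.m (.m ld le) lf)⟩,
  ⟨.ofNat 6, false, [(true, lf)], lc, la, (.m ld (.m lb le))⟩,
  ⟨.ofNat 2, true, [], la, (.m (.m lc le) (.m ld lb)), lf⟩,
  ⟨.ofNat 1, true, [(true, lf), (false, le)], la, (.m lc lb), ld⟩,
  ⟨.ofNat 2, false, [], la, le, (.m (.m (.m lb lc) ld) lf)⟩,
  ⟨.negSucc 1, true, [(false, lb), (false, la)], le, (.m lc lf), ld⟩,
  ⟨.ofNat 4, false, [(true, lf)], (.m la le), lc, (.m ld lb)⟩,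
  ⟨.negSucc 1, true, [], (.m lc le), (.m ld la), (.m lb lf)⟩,
  ⟨.ofNat 2, false, [(false, la)], (.m lc lb), le, (.m ld lf)⟩,
  ⟨.negSucc 1, false, [(true, (.m ld (.m lb lf)))], lc, le, la⟩,
  ⟨.ofNat 4, false, [(false, lc), (true, lf)], (.m la ld), le, lb⟩,
  ⟨.negSucc 3, true, [], la, (.m (.m (.m lc lb) ld) le), lf⟩]

/-- part 1 of the certificate -/
def cert1 : List Inst := [
  ⟨.ofNat 8, true, [], (.m la le), (.m (.m lc lb) ld), lf⟩,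
  ⟨.ofNat 2, true, [], lc, la, (.m (.m ld le) (.m lb lf))⟩,
  ⟨.ofNat 6, false, [(true, lb), (false, lc), (true, lf)], ld, le, la⟩,
  ⟨.ofNat 4, true, [(false, (.m le la)), (true, lf)], lc, lb, ld⟩,
  ⟨.ofNat 4, true, [(true, (.m lb lf))], le, (.m la lc), ld⟩,
  ⟨.ofNat 2, true, [(false, (.m la lb))], le, (.m lf lc), ld⟩,
  ⟨.negSucc 0, true, [(false, le)], lc, (.m (.m ld la) lb), lf⟩,
  ⟨.ofNat 2, false, [], la, (.m lc (.m le lf)), (.m lb ld)⟩,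
  ⟨.negSucc 1, true, [(false, (.m la lc))], le, (.m lf ld), lb⟩,
  ⟨.negSucc 3, true, [(false, la), (true, lf)], lc, (.m le lb), ld⟩,
  ⟨.negSucc 1, true, [(false, lc)], ld, la, (.m (.m lb le) lf)⟩,
  ⟨.ofNat 2, true, [], (.m la le), (.m lc lb), (.m ld lf)⟩,
  ⟨.ofNat 6, true, [(false, la), (false, le)], lc, lb, (.m ld lf)⟩,
  ⟨.ofNat 2, false, [(false, lc), (true, lf)], la, le, (.m lb ld)⟩,
  ⟨.negSucc 1, true, [(false, la), (false, (.m lc le))], ld, lb, lf⟩,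
  ⟨.negSucc 1, false, [(true, lb), (true, lf)], (.m lc la), le, ld⟩,
  ⟨.negSucc 1, true, [(true, (.m ld lf))], la, (.m lb le), lc⟩,
  ⟨.ofNat 2, false, [], lc, le, (.m la (.m (.m lb ld) lf))⟩,
  ⟨.ofNat 2, false, [(true, le), (true, lf)], (.m la lc), ld, lb⟩,
  ⟨.ofNat 4, true, [(false, lc)], la, (.m ld lb), (.m le lf)⟩,
  ⟨.negSucc 3, false, [], lc, le, (.m (.m la (.m ld lb)) lf)⟩,
  ⟨.negSucc 3, true, [(true, (.m (.m lb ld) lf))], le, lc, la⟩,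
  ⟨.negSucc 1, true, [(true, lf)], (.m lc ld), (.m la le), lb⟩,
  ⟨.negSucc 3, false, [(true, lf), (false, lc)], la, ld, (.m lb le)⟩,
  ⟨.negSucc 1, true, [(false, lc), (false, la)], le, (.m lb lf), ld⟩,
  ⟨.ofNat 4, true, [(false, la)], lc, (.m ld lb), (.m le lf)⟩,
  ⟨.ofNat 4, false, [], lc, le, (.m (.m ld la) (.m lb lf))⟩,
  ⟨.ofNat 4, true, [(false, la), (true, lf)], le, (.m lc lb), ld⟩,
  ⟨.ofNat 6, true, [(false, le), (true, (.m lb lf))], lc, la, ld⟩,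
  ⟨.ofNat 1, true, [(false, le)], lc, (.m la (.m lb ld)), lf⟩,
  ⟨.ofNat 1, true, [(false, lc), (false, le)], la, (.m lb ld), lf⟩,
  ⟨.negSucc 1, false, [(false, le), (false, (.m la lc))], lb, lf, ld⟩,
  ⟨.ofNat 4, true, [(true, lf)], lc, la, (.m (.m ld lb) le)⟩,
  ⟨.ofNat 2, true, [(false, la)], lc, (.m lb le), (.m ld lf)⟩,
  ⟨.ofNat 2, false, [(false, (.m lc ld))], le, la, (.m lb lf)⟩,
  ⟨.ofNat 4, true, [(true, lf)], le, (.m (.m lc ld) la), lb⟩,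
  ⟨.ofNat 4, true, [(false, lc)], le, la, (.m (.m lb ld) lf)⟩,
  ⟨.ofNat 4, true, [(false, la)], (.m le lc), (.m lb ld), lf⟩,
  ⟨.negSucc 5, false, [(true, le), (true, lf)], lc, la, (.m ld lb)⟩,
  ⟨.negSucc 7, false, [(true, le), (true, lf)], (.m lc la), ld, lb⟩,
  ⟨.negSucc 3, false, [], (.m (.m lc la) lb), le, (.m ld lf)⟩,
  ⟨.ofNat 2, false, [(true, (.m ld lf)), (false, la)], lc, le, lb⟩,
  ⟨.negSucc 5, true, [], la, (.m le (.m (.m lc lb) ld)), lf⟩,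
  ⟨.negSucc 3, true, [(true, (.m lb lf))], le, la, (.m lc ld)⟩,
  ⟨.negSucc 1, true, [(false, la), (false, lc)], ld, (.m le lb), lf⟩,
  ⟨.ofNat 2, true, [], la, (.m lb lc), (.m ld (.m le lf))⟩,
  ⟨.ofNat 2, true, [(false, lc)], la, (.m lb ld), (.m le lf)⟩,
  ⟨.ofNat 2, false, [(true, lf)], (.m lc ld), la, (.m lb le)⟩,
  ⟨.negSucc 1, true, [(false, lc)], le, (.m (.m la ld) lb), lf⟩,
  ⟨.ofNat 4, false, [(true, (.m ld lf))], la, lc, (.m lb le)⟩]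

/-- part 2 of the certificate -/
def cert2 : List Inst := [
  ⟨.ofNat 2, false, [(true, lf)], lc, la, (.m (.m lb le) ld)⟩,
  ⟨.ofNat 4, true, [(true, lf)], la, (.m lc (.m lb ld)), le⟩,
  ⟨.negSucc 1, true, [(false, lc)], ld, (.m la le), (.m lb lf)⟩,
  ⟨.negSucc 7, true, [(false, la)], (.m lc le), lb, (.m ld lf)⟩,
  ⟨.ofNat 2, false, [], lc, la, (.m lb (.m (.m ld le) lf))⟩,
  ⟨.negSucc 1, true, [(true, ld), (true, lf)], le, (.m lc la), lb⟩,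
  ⟨.ofNat 2, false, [(true, lf)], la, (.m lc ld), (.m lb le)⟩,
  ⟨.ofNat 2, true, [(true, lb), (true, lf)], lc, (.m ld le), la⟩,
  ⟨.negSucc 1, false, [(true, lb), (true, lf)], lc, (.m ld le), la⟩,
  ⟨.negSucc 1, true, [(true, le), (true, lf), (false, la)], lc, lb, ld⟩,
  ⟨.negSucc 5, true, [(true, (.m lb lf))], lc, (.m le la), ld⟩,
  ⟨.negSucc 5, true, [(false, la), (true, lf)], le, lb, (.m lc ld)⟩,
  ⟨.negSucc 0, true, [(true, lf), (false, le)], lc, la, (.m ld lb)⟩,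
  ⟨.negSucc 3, true, [], le, (.m lc la), (.m lb (.m ld lf))⟩,
  ⟨.negSucc 1, true, [], la, (.m (.m lc le) lb), (.m ld lf)⟩,
  ⟨.negSucc 2, true, [(false, le)], (.m la lc), (.m lb ld), lf⟩,
  ⟨.ofNat 2, false, [(true, (.m lb lf))], lc, ld, (.m le la)⟩,
  ⟨.ofNat 2, false, [], la, le, (.m lc (.m ld (.m lb lf)))⟩,
  ⟨.ofNat 2, false, [], la, le, (.m lb (.m lc (.m ld lf)))⟩,
  ⟨.negSucc 1, false, [], (.m lc ld), le, (.m la (.m lb lf))⟩,
  ⟨.ofNat 2, false, [(false, la), (true, (.m ld lf))], lc, le, lb⟩,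
  ⟨.negSucc 3, true, [], lc, la, (.m ld (.m (.m lb le) lf))⟩,
  ⟨.ofNat 2, false, [], lc, ld, (.m (.m le (.m la lf)) lb)⟩,
  ⟨.negSucc 3, true, [], le, (.m la (.m lc lb)), (.m ld lf)⟩,
  ⟨.negSucc 5, true, [], lc, (.m (.m le la) lb), (.m ld lf)⟩,
  ⟨.negSucc 1, true, [], lc, la, (.m (.m le (.m ld lb)) lf)⟩,
  ⟨.ofNat 2, false, [(true, lf)], la, (.m lc (.m ld le)), lb⟩,
  ⟨.ofNat 5, true, [(false, le)], lc, la, (.m (.m ld lb) lf)⟩,
  ⟨.ofNat 12, false, [(false, la), (true, lf)], lb, le, (.m lc ld)⟩,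
  ⟨.ofNat 2, false, [(false, (.m la lc))], le, (.m ld lf), lb⟩,
  ⟨.ofNat 2, true, [(true, lf)], lc, (.m (.m la ld) lb), le⟩,
  ⟨.ofNat 4, false, [(true, (.m lb lf))], le, lc, (.m ld la)⟩,
  ⟨.negSucc 5, true, [(true, (.m ld lf))], lc, (.m le la), lb⟩,
  ⟨.negSucc 3, true, [(true, lf)], la, (.m lc (.m le lb)), ld⟩,
  ⟨.ofNat 2, true, [], la, (.m lc (.m lb (.m le ld))), lf⟩,
  ⟨.ofNat 2, true, [(false, la), (true, lf)], (.m lc le), lb, ld⟩,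
  ⟨.ofNat 10, false, [], (.m lc la), le, (.m lb (.m ld lf))⟩,
  ⟨.negSucc 9, true, [(true, le), (true, lf)], la, (.m lc lb), ld⟩,
  ⟨.negSucc 3, true, [(true, lf), (false, (.m la lb))], le, lc, ld⟩,
  ⟨.ofNat 4, true, [(true, lf), (false, lc)], (.m ld le), la, lb⟩,
  ⟨.ofNat 2, false, [], la, (.m (.m (.m lc le) lf) ld), lb⟩,
  ⟨.ofNat 4, false, [(true, (.m (.m ld le) lf))], la, lc, lb⟩,
  ⟨.negSucc 7, true, [(false, la), (true, lf), (false, lc)], le, lb, ld⟩,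
  ⟨.negSucc 3, true, [(false, la)], lc, lb, (.m ld (.m le lf))⟩,
  ⟨.ofNat 4, true, [(false, lc)], la, (.m lb le), (.m ld lf)⟩,
  ⟨.ofNat 2, true, [(true, lf)], lc, (.m la ld), (.m le lb)⟩,
  ⟨.negSucc 3, true, [], (.m la lc), (.m (.m ld le) lb), lf⟩,
  ⟨.ofNat 4, true, [(false, lc)], ld, (.m la (.m le lb)), lf⟩,
  ⟨.ofNat 8, true, [(false, la), (true, lf)], lc, (.m ld lb), le⟩,
  ⟨.ofNat 6, false, [(false, lc), (false, la)], ld, le, (.m lb lf)⟩]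

/-- part 3 of the certificate -/
def cert3 : List Inst := [
  ⟨.negSucc 1, false, [(true, lf)], la, le, (.m lc (.m lb ld))⟩,
  ⟨.ofNat 4, true, [(false, lc)], (.m le la), (.m lb ld), lf⟩,
  ⟨.negSucc 1, false, [(false, lc), (false, la)], ld, le, (.m lf lb)⟩,
  ⟨.ofNat 2, true, [(true, lf)], la, (.m (.m lc le) lb), ld⟩,
  ⟨.negSucc 1, true, [(false, lc)], la, (.m le (.m lb lf)), ld⟩,
  ⟨.ofNat 2, false, [(true, lb), (true, lf)], lc, le, (.m la ld)⟩,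
  ⟨.negSucc 1, false, [(true, lf)], la, lc, (.m (.m lb le) ld)⟩,
  ⟨.negSucc 1, false, [], la, (.m (.m lc le) lf), (.m ld lb)⟩,
  ⟨.negSucc 1, true, [(false, lc), (true, ld), (false, la)], le, lb, lf⟩,
  ⟨.negSucc 5, false, [(false, le), (false, ld), (false, lc)], la, lf, lb⟩,
  ⟨.negSucc 3, false, [(true, lf)], la, (.m (.m lc ld) le), lb⟩,
  ⟨.negSucc 1, false, [(true, lc), (true, (.m ld lf))], la, le, lb⟩,
  ⟨.negSucc 1, true, [(false, lc), (false, le), (false, la)], ld, lb, lf⟩,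
  ⟨.negSucc 1, true, [(true, (.m ld lf))], le, la, (.m lc lb)⟩,
  ⟨.ofNat 2, false, [(false, la)], (.m lc lb), le, (.m lf ld)⟩,
  ⟨.ofNat 8, true, [(true, (.m ld (.m lb lf)))], lc, la, le⟩,
  ⟨.negSucc 3, false, [(true, le), (true, lf), (false, la)], lc, ld, lb⟩,
  ⟨.negSucc 5, true, [(false, la)], lc, (.m (.m lb ld) le), lf⟩,
  ⟨.negSucc 3, false, [(false, (.m la lc))], (.m le ld), lf, lb⟩,
  ⟨.negSucc 5, true, [(true, lf), (false, lc), (false, le)], ld, la, lb⟩,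
  ⟨.negSucc 1, true, [(false, (.m lc le))], la, (.m ld lb), lf⟩,
  ⟨.negSucc 5, false, [(false, lc)], ld, le, (.m (.m la lf) lb)⟩,
  ⟨.negSucc 3, false, [], (.m lc la), le, (.m (.m ld lb) lf)⟩,
  ⟨.negSucc 3, true, [], le, lc, (.m (.m ld la) (.m lb lf))⟩,
  ⟨.negSucc 1, false, [(true, la), (true, lb), (true, lf)], lc, le, ld⟩,
  ⟨.ofNat 4, true, [], la, (.m le (.m lc (.m lb ld))), lf⟩,
  ⟨.ofNat 4, true, [], (.m le (.m lc ld)), (.m la lb), lf⟩,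
  ⟨.ofNat 2, true, [], la, (.m lc lb), (.m ld (.m le lf))⟩,
  ⟨.ofNat 2, true, [(false, (.m lc ld))], le, (.m lf la), lb⟩,
  ⟨.negSucc 5, true, [(true, lf), (false, la)], le, (.m lb lc), ld⟩,
  ⟨.ofNat 4, true, [], le, (.m lc la), (.m (.m ld lb) lf)⟩,
  ⟨.negSucc 1, true, [(false, la)], lc, lb, (.m le (.m ld lf))⟩,
  ⟨.ofNat 2, true, [], lc, (.m la (.m le lb)), (.m ld lf)⟩,
  ⟨.ofNat 8, true, [(false, lc)], ld, (.m la (.m lb le)), lf⟩,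
  ⟨.ofNat 2, true, [], (.m la le), (.m lb (.m lc ld)), lf⟩,
  ⟨.negSucc 11, false, [(false, la), (true, lf)], lc, le, (.m ld lb)⟩,
  ⟨.ofNat 2, true, [(false, (.m la lc))], le, (.m lf lb), ld⟩,
  ⟨.negSucc 1, true, [(true, (.m lf ld)), (false, la)], lc, lb, le⟩,
  ⟨.negSucc 5, true, [], le, (.m lc la), (.m ld (.m lb lf))⟩,
  ⟨.ofNat 2, true, [(false, le), (false, la)], lc, lb, (.m ld lf)⟩,
  ⟨.negSucc 5, false, [], la, le, (.m (.m lc (.m ld lb)) lf)⟩,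
  ⟨.negSucc 7, false, [(true, ld), (true, lf)], le, la, (.m lc lb)⟩,
  ⟨.ofNat 2, false, [(false, la), (true, lf)], lc, le, (.m lb ld)⟩,
  ⟨.negSucc 1, true, [(false, la)], (.m lc (.m le lf)), lb, ld⟩,
  ⟨.negSucc 1, false, [(true, ld), (true, lf), (false, la)], lc, le, lb⟩,
  ⟨.ofNat 4, true, [], le, (.m (.m lc la) lb), (.m ld lf)⟩,
  ⟨.ofNat 4, true, [(true, lf)], (.m le la), (.m lc lb), ld⟩,
  ⟨.ofNat 4, false, [], (.m la lb), le, (.m lc (.m ld lf))⟩,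
  ⟨.ofNat 4, false, [(false, (.m lc ld))], (.m le la), lf, lb⟩,
  ⟨.negSucc 1, false, [(false, la)], lb, lc, (.m ld (.m le lf))⟩]

/-- part 4 of the certificate -/
def cert4 : List Inst := [
  ⟨.ofNat 4, false, [(true, (.m lb lf))], la, le, (.m lc ld)⟩,
  ⟨.negSucc 1, false, [(true, lb)], la, lc, (.m (.m ld le) lf)⟩,
  ⟨.ofNat 4, true, [], la, (.m lc (.m lb (.m ld le))), lf⟩,
  ⟨.negSucc 1, false, [(false, la)], (.m lb lc), (.m le lf), ld⟩,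
  ⟨.ofNat 4, true, [], (.m lc ld), (.m la (.m le lb)), lf⟩,
  ⟨.ofNat 4, true, [(true, le), (true, (.m lb lf))], lc, la, ld⟩,
  ⟨.ofNat 2, false, [(true, lf)], (.m la le), (.m lc ld), lb⟩,
  ⟨.ofNat 2, true, [(false, la), (false, lc)], ld, lb, (.m le lf)⟩,
  ⟨.ofNat 2, false, [(false, (.m la lc))], le, (.m lf ld), lb⟩,
  ⟨.negSucc 1, true, [], lc, (.m (.m (.m ld le) la) lb), lf⟩,
  ⟨.ofNat 2, false, [(false, (.m la lb))], le, lc, (.m lf ld)⟩,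
  ⟨.ofNat 2, true, [(true, ld)], lc, la, (.m le (.m lb lf))⟩,
  ⟨.negSucc 6, true, [(false, le)], lc, (.m (.m la ld) lb), lf⟩,
  ⟨.negSucc 1, false, [(true, ld)], la, (.m lc (.m le lf)), lb⟩,
  ⟨.ofNat 10, false, [(false, lc)], (.m ld la), le, (.m lb lf)⟩,
  ⟨.negSucc 9, false, [(true, lf)], la, (.m lc le), (.m ld lb)⟩,
  ⟨.ofNat 4, false, [(true, lf)], le, la, (.m lb (.m lc ld))⟩,
  ⟨.negSucc 7, true, [(false, lc)], (.m la le), (.m lb ld), lf⟩,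
  ⟨.ofNat 4, false, [(true, (.m lc (.m ld lf)))], la, le, lb⟩,
  ⟨.ofNat 4, false, [], (.m la (.m lc lb)), le, (.m ld lf)⟩,
  ⟨.negSucc 5, false, [(true, lf), (false, la)], lb, le, (.m lc ld)⟩,
  ⟨.negSucc 4, false, [(true, lf), (false, le)], (.m la lc), ld, lb⟩,
  ⟨.negSucc 3, true, [(false, lc)], ld, la, (.m lb (.m le lf))⟩,
  ⟨.ofNat 8, true, [(false, lc)], la, (.m ld (.m lb le)), lf⟩,
  ⟨.ofNat 2, false, [(true, ld)], lc, la, (.m (.m le lb) lf)⟩,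
  ⟨.negSucc 3, true, [(false, ld), (false, la), (false, lc)], le, lb, lf⟩,
  ⟨.negSucc 3, true, [(true, lf), (false, lc)], la, (.m lb le), ld⟩,
  ⟨.negSucc 1, true, [(false, le), (false, la)], lc, (.m ld lb), lf⟩,
  ⟨.ofNat 2, true, [], lc, (.m la lb), (.m ld (.m le lf))⟩,
  ⟨.negSucc 3, true, [(true, (.m (.m ld le) lf))], lc, la, lb⟩,
  ⟨.ofNat 4, true, [], (.m lc ld), (.m le (.m la lb)), lf⟩,
  ⟨.ofNat 2, false, [(false, la)], lc, ld, (.m (.m lb le) lf)⟩,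
  ⟨.ofNat 6, false, [(true, (.m ld lf))], (.m le la), lc, lb⟩,
  ⟨.negSucc 1, true, [], (.m lc la), (.m le (.m ld lb)), lf⟩,
  ⟨.negSucc 1, false, [], (.m la lc), ld, (.m le (.m lb lf))⟩,
  ⟨.ofNat 4, true, [], lc, (.m (.m la ld) (.m le lb)), lf⟩,
  ⟨.negSucc 3, true, [(false, lc)], ld, (.m (.m la le) lb), lf⟩,
  ⟨.negSucc 3, true, [], lc, (.m la (.m (.m le lb) ld)), lf⟩,
  ⟨.ofNat 2, false, [(true, le), (false, la), (true, lf)], lc, ld, lb⟩,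
  ⟨.ofNat 2, true, [(false, (.m lc ld))], le, la, (.m lb lf)⟩,
  ⟨.negSucc 1, true, [], lc, (.m le (.m la ld)), (.m lb lf)⟩,
  ⟨.ofNat 8, true, [], (.m lc le), (.m (.m ld la) lb), lf⟩,
  ⟨.negSucc 4, false, [(true, lf), (false, le)], lc, la, (.m lb ld)⟩,
  ⟨.ofNat 2, true, [(false, la)], (.m lc le), (.m ld lb), lf⟩,
  ⟨.ofNat 4, false, [(false, (.m la lc))], (.m le lb), lf, ld⟩,
  ⟨.ofNat 10, true, [(false, lc)], ld, la, (.m le (.m lb lf))⟩,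
  ⟨.negSucc 3, false, [(false, la)], lc, le, (.m (.m lb ld) lf)⟩,
  ⟨.ofNat 4, true, [(true, lf), (false, (.m la lc))], le, ld, lb⟩,
  ⟨.ofNat 2, true, [(true, (.m lb lf))], le, (.m lc ld), la⟩,
  ⟨.ofNat 4, true, [(false, la)], lc, (.m (.m ld le) lb), lf⟩]

/-- part 5 of the certificate -/
def cert5 : List Inst := [
  ⟨.ofNat 6, true, [], la, (.m lb (.m lc (.m ld le))), lf⟩,
  ⟨.ofNat 4, true, [(true, lf)], (.m lc le), (.m la ld), lb⟩,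
  ⟨.negSucc 1, true, [], la, (.m le (.m lc lb)), (.m ld lf)⟩,
  ⟨.ofNat 6, true, [(true, lf)], lc, la, (.m lb (.m ld le))⟩,
  ⟨.negSucc 1, false, [(false, lc), (true, lb), (true, lf)], ld, le, la⟩,
  ⟨.ofNat 2, false, [(false, ld), (false, lc)], (.m la le), lf, lb⟩,
  ⟨.ofNat 2, true, [], (.m lc le), la, (.m ld (.m lb lf))⟩,
  ⟨.ofNat 1, true, [(false, le)], lc, (.m la (.m ld lb)), lf⟩,
  ⟨.ofNat 12, true, [(true, le), (false, la), (true, lf)], lc, lb, ld⟩,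
  ⟨.ofNat 2, true, [], la, (.m (.m lc (.m le lb)) ld), lf⟩,
  ⟨.ofNat 4, true, [], la, (.m le (.m lc (.m ld lb))), lf⟩,
  ⟨.ofNat 6, true, [], lc, (.m (.m ld (.m le la)) lb), lf⟩,
  ⟨.negSucc 3, true, [], lc, (.m la (.m lb le)), (.m ld lf)⟩,
  ⟨.ofNat 4, false, [], lc, (.m la le), (.m ld (.m lb lf))⟩,
  ⟨.negSucc 3, true, [], la, (.m lc (.m ld (.m lb le))), lf⟩,
  ⟨.negSucc 3, true, [(true, lb), (true, lf)], (.m lc ld), la, le⟩,
  ⟨.negSucc 1, true, [(true, (.m ld lf)), (false, la)], le, lb, lc⟩,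
  ⟨.ofNat 6, true, [(true, (.m ld lf)), (false, le)], lc, la, lb⟩,
  ⟨.ofNat 2, true, [], (.m lc (.m ld le)), (.m la lb), lf⟩,
  ⟨.negSucc 3, true, [(false, lc), (true, lf)], la, (.m ld lb), le⟩,
  ⟨.negSucc 1, false, [(false, (.m la lb))], lc, le, (.m ld lf)⟩,
  ⟨.negSucc 1, true, [(false, la), (false, lc)], le, (.m ld lb), lf⟩,
  ⟨.ofNat 4, true, [(true, lf), (false, la)], (.m lc ld), lb, le⟩,
  ⟨.ofNat 16, false, [(false, lc)], (.m la ld), le, (.m lb lf)⟩,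
  ⟨.negSucc 1, true, [(true, lf), (false, la)], lc, (.m lb le), ld⟩,
  ⟨.negSucc 1, true, [], (.m lc ld), la, (.m (.m lb le) lf)⟩,
  ⟨.ofNat 6, true, [], lc, (.m la (.m ld (.m lb le))), lf⟩,
  ⟨.negSucc 1, false, [(false, lb), (false, la)], le, lc, (.m ld lf)⟩,
  ⟨.ofNat 10, true, [(true, lf), (false, lc)], ld, la, (.m lb le)⟩,
  ⟨.negSucc 3, false, [(true, lf), (false, lc)], la, ld, (.m le lb)⟩,
  ⟨.negSucc 3, false, [(true, lf), (false, la)], le, lc, (.m lb ld)⟩,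
  ⟨.negSucc 5, false, [(false, la)], lc, le, (.m lb (.m ld lf))⟩,
  ⟨.ofNat 2, true, [(true, lf)], lc, (.m (.m la le) ld), lb⟩,
  ⟨.negSucc 1, false, [(false, lc), (true, lf), (false, la)], lb, le, ld⟩,
  ⟨.negSucc 1, true, [(false, lc), (false, la)], ld, (.m le lb), lf⟩,
  ⟨.negSucc 5, false, [(true, lf)], la, lc, (.m lb (.m ld le))⟩,
  ⟨.negSucc 3, true, [], la, (.m (.m lb lc) (.m ld le)), lf⟩,
  ⟨.ofNat 4, false, [(false, (.m la lb))], (.m le lc), lf, ld⟩,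
  ⟨.negSucc 1, true, [], la, (.m (.m (.m lb lc) ld) le), lf⟩,
  ⟨.negSucc 5, true, [(true, lf)], lc, (.m la ld), (.m lb le)⟩,
  ⟨.ofNat 2, false, [(false, la)], lb, (.m lc le), (.m ld lf)⟩,
  ⟨.ofNat 2, false, [(false, le), (false, (.m la lc))], ld, lf, lb⟩,
  ⟨.ofNat 2, true, [(true, lb), (true, lf)], le, lc, (.m ld la)⟩,
  ⟨.ofNat 2, true, [], (.m la le), (.m (.m lc ld) lb), lf⟩,
  ⟨.negSucc 1, false, [(true, ld), (true, lf), (false, le)], la, lc, lb⟩,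
  ⟨.negSucc 1, true, [(false, le), (false, la), (false, lc)], ld, lb, lf⟩,
  ⟨.negSucc 13, true, [(false, lc)], la, (.m (.m lb ld) le), lf⟩,
  ⟨.ofNat 2, true, [(false, (.m la lb))], le, lc, (.m ld lf)⟩,
  ⟨.ofNat 4, false, [(false, la)], (.m lb lc), le, (.m ld lf)⟩,
  ⟨.negSucc 1, false, [(false, la), (false, ld), (false, lc)], le, lf, lb⟩]

/-- part 6 of the certificate -/
def cert6 : List Inst := [
  ⟨.negSucc 3, false, [(false, la), (true, lf)], lb, lc, (.m ld le)⟩,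
  ⟨.negSucc 11, false, [(true, lf), (false, lc)], le, la, (.m lb ld)⟩,
  ⟨.negSucc 1, false, [], (.m la lb), lc, (.m ld (.m le lf))⟩,
  ⟨.negSucc 3, false, [(false, (.m lc la))], ld, le, (.m lb lf)⟩,
  ⟨.ofNat 6, true, [(false, la)], (.m lc le), (.m lb ld), lf⟩,
  ⟨.ofNat 2, false, [(false, lc), (false, la)], lb, le, (.m ld lf)⟩,
  ⟨.ofNat 5, true, [(false, le)], la, (.m (.m lb lc) ld), lf⟩,
  ⟨.negSucc 5, false, [(true, lb), (true, lf), (false, lc)], ld, le, la⟩,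
  ⟨.ofNat 8, true, [], lc, (.m ld la), (.m (.m lb le) lf)⟩,
  ⟨.negSucc 5, true, [], lc, (.m la (.m le ld)), (.m lb lf)⟩,
  ⟨.negSucc 3, true, [], (.m le lc), (.m ld la), (.m lb lf)⟩,
  ⟨.negSucc 1, false, [(false, la)], lb, (.m le lc), (.m ld lf)⟩,
  ⟨.negSucc 9, true, [(true, le), (true, lf)], lc, (.m ld la), lb⟩,
  ⟨.ofNat 2, true, [(true, lf)], (.m lc la), (.m ld lb), le⟩,
  ⟨.negSucc 4, true, [(true, lf), (false, le)], lc, (.m ld la), lb⟩,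
  ⟨.negSucc 1, true, [(false, lc)], ld, (.m la lb), (.m le lf)⟩,
  ⟨.ofNat 4, true, [], (.m la lc), (.m ld (.m le lb)), lf⟩,
  ⟨.ofNat 4, true, [(false, la), (false, lc)], le, lb, (.m ld lf)⟩,
  ⟨.ofNat 2, false, [(false, ld), (false, lc), (false, la)], le, lf, lb⟩,
  ⟨.negSucc 1, true, [], la, (.m lc (.m (.m le lb) lf)), ld⟩,
  ⟨.ofNat 2, true, [], lc, (.m la (.m (.m lb le) ld)), lf⟩,
  ⟨.ofNat 6, true, [], (.m lc la), (.m lb (.m ld le)), lf⟩,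
  ⟨.negSucc 1, true, [], (.m (.m lc ld) le), (.m la lb), lf⟩,
  ⟨.negSucc 1, true, [], lc, la, (.m lb (.m (.m ld le) lf))⟩,
  ⟨.negSucc 5, true, [(true, (.m lc (.m ld lf)))], le, la, lb⟩,
  ⟨.ofNat 1, false, [(true, lf), (false, le)], la, lc, (.m lb ld)⟩,
  ⟨.negSucc 1, false, [(true, lf)], (.m lc le), la, (.m ld lb)⟩,
  ⟨.negSucc 1, false, [(false, (.m lb lc)), (false, la)], le, lf, ld⟩,
  ⟨.negSucc 1, true, [], lc, la, (.m lb (.m ld (.m le lf)))⟩,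
  ⟨.negSucc 1, true, [], lc, la, (.m le (.m ld (.m lb lf)))⟩,
  ⟨.ofNat 2, true, [], le, (.m la lc), (.m ld (.m lb lf))⟩,
  ⟨.ofNat 4, false, [(true, lb), (true, lf)], (.m lc le), ld, la⟩,
  ⟨.negSucc 1, true, [], lc, (.m (.m ld la) (.m le lb)), lf⟩,
  ⟨.negSucc 1, true, [(false, lc)], la, (.m le (.m lb ld)), lf⟩,
  ⟨.negSucc 5, true, [(false, le)], lc, (.m (.m la lb) ld), lf⟩,
  ⟨.negSucc 1, false, [(false, la), (true, lf)], (.m lc ld), le, lb⟩,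
  ⟨.ofNat 2, true, [], le, la, (.m (.m lb lc) (.m ld lf))⟩,
  ⟨.ofNat 2, true, [(true, lf), (false, lc), (false, la)], le, lb, ld⟩,
  ⟨.ofNat 2, true, [], (.m la le), (.m lb lc), (.m ld lf)⟩,
  ⟨.ofNat 6, false, [], la, (.m lc le), (.m (.m ld lb) lf)⟩,
  ⟨.negSucc 5, true, [(false, lc)], le, (.m (.m ld la) lb), lf⟩,
  ⟨.negSucc 1, true, [(false, lc), (true, lb), (true, lf)], le, ld, la⟩,
  ⟨.negSucc 1, false, [], la, (.m lc (.m (.m ld le) lf)), lb⟩,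
  ⟨.ofNat 4, true, [(false, lc), (false, la), (true, lf)], ld, lb, le⟩,
  ⟨.negSucc 1, false, [(true, lf), (false, lc), (false, la)], lb, le, ld⟩,
  ⟨.negSucc 3, false, [(false, la), (true, lf)], (.m lc lb), le, ld⟩,
  ⟨.negSucc 5, true, [], (.m la lc), (.m le (.m ld lb)), lf⟩,
  ⟨.negSucc 4, true, [(false, le)], la, (.m lc (.m lb ld)), lf⟩,
  ⟨.negSucc 1, true, [(true, ld)], lc, la, (.m (.m le lb) lf)⟩,
  ⟨.ofNat 2, false, [], (.m la lc), ld, (.m (.m le lb) lf)⟩]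

/-- part 7 of the certificate -/
def cert7 : List Inst := [
  ⟨.negSucc 3, false, [(false, lc), (true, lf), (false, la)], ld, le, lb⟩,
  ⟨.negSucc 1, false, [(false, lc)], la, ld, (.m (.m le lb) lf)⟩,
  ⟨.negSucc 5, false, [(true, (.m ld (.m lb lf)))], la, le, lc⟩,
  ⟨.ofNat 2, false, [(true, lf), (false, (.m la le))], lc, ld, lb⟩,
  ⟨.ofNat 2, false, [], (.m la lc), (.m (.m ld le) lf), lb⟩,
  ⟨.ofNat 6, true, [], lc, (.m la (.m lb (.m ld le))), lf⟩,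
  ⟨.ofNat 1, true, [(false, le)], la, (.m lc lb), (.m ld lf)⟩,
  ⟨.negSucc 1, false, [(false, lc), (false, la)], (.m ld le), lf, lb⟩,
  ⟨.ofNat 4, true, [(false, lc)], le, (.m la (.m ld lb)), lf⟩,
  ⟨.ofNat 4, false, [(true, lf)], la, lc, (.m (.m le lb) ld)⟩,
  ⟨.negSucc 3, true, [], lc, (.m la lb), (.m (.m ld le) lf)⟩,
  ⟨.negSucc 3, true, [], lc, (.m la ld), (.m le (.m lb lf))⟩,
  ⟨.ofNat 2, false, [(false, la)], lc, le, (.m (.m ld lb) lf)⟩,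
  ⟨.negSucc 1, false, [(true, lf), (false, la), (false, lc)], ld, le, lb⟩,
  ⟨.ofNat 2, true, [], la, (.m lc (.m le (.m lb lf))), ld⟩,
  ⟨.ofNat 5, true, [(false, (.m lc la)), (false, le)], ld, lb, lf⟩,
  ⟨.negSucc 1, false, [(true, lf)], la, (.m lc ld), (.m le lb)⟩,
  ⟨.ofNat 4, true, [], lc, (.m (.m le la) (.m lb ld)), lf⟩,
  ⟨.negSucc 3, true, [(false, lc), (false, la), (true, lf)], le, lb, ld⟩,
  ⟨.ofNat 4, true, [], le, (.m la lb), (.m (.m lc ld) lf)⟩,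
  ⟨.negSucc 3, false, [(true, (.m (.m lc ld) lf))], la, le, lb⟩,
  ⟨.ofNat 2, true, [(false, la), (false, lc)], (.m ld le), lb, lf⟩,
  ⟨.negSucc 1, false, [(false, la)], (.m lc lb), (.m le lf), ld⟩,
  ⟨.ofNat 4, true, [], la, (.m (.m lc (.m ld le)) lb), lf⟩,
  ⟨.negSucc 3, true, [(false, lc), (true, (.m lb lf))], le, la, ld⟩,
  ⟨.negSucc 1, false, [(true, lf), (false, la)], (.m lc lb), le, ld⟩,
  ⟨.ofNat 4, false, [(true, (.m (.m lb ld) lf))], le, lc, la⟩,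
  ⟨.negSucc 1, false, [(true, (.m ld lb)), (true, lf)], lc, le, la⟩,
  ⟨.negSucc 1, false, [], lc, ld, (.m (.m (.m le la) lf) lb)⟩,
  ⟨.negSucc 1, false, [(true, lb), (true, lf)], le, lc, (.m ld la)⟩,
  ⟨.negSucc 1, true, [], la, (.m lb le), (.m lc (.m ld lf))⟩,
  ⟨.negSucc 1, false, [(false, la), (true, ld), (true, lf)], lc, le, lb⟩,
  ⟨.negSucc 7, false, [(true, lf)], le, (.m lc ld), (.m la lb)⟩,
  ⟨.ofNat 2, false, [(true, lf)], (.m lc le), la, (.m lb ld)⟩,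
  ⟨.ofNat 2, true, [(true, lf)], (.m (.m lc ld) le), la, lb⟩,
  ⟨.ofNat 6, false, [], lc, le, (.m (.m (.m ld la) lb) lf)⟩,
  ⟨.ofNat 2, false, [(true, lf)], (.m lc la), ld, (.m lb le)⟩,
  ⟨.ofNat 4, true, [(true, ld), (true, lf)], le, la, (.m lc lb)⟩,
  ⟨.negSucc 3, false, [(true, lf), (false, lc)], la, (.m ld le), lb⟩,
  ⟨.negSucc 1, true, [(true, lf)], la, (.m lc lb), (.m ld le)⟩,
  ⟨.negSucc 3, false, [(true, (.m lb lf))], (.m la lc), le, ld⟩,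
  ⟨.ofNat 4, false, [(true, lf)], la, lc, (.m (.m ld lb) le)⟩,
  ⟨.ofNat 2, true, [(false, la)], le, lb, (.m lc (.m ld lf))⟩,
  ⟨.negSucc 3, false, [(false, lc)], ld, (.m la le), (.m lb lf)⟩,
  ⟨.negSucc 3, false, [(false, lb), (false, la)], lc, le, (.m ld lf)⟩,
  ⟨.ofNat 3, true, [(false, le)], (.m lc la), (.m ld lb), lf⟩,
  ⟨.negSucc 3, true, [(false, (.m (.m la lc) le))], ld, lb, lf⟩,
  ⟨.ofNat 5, true, [(false, le)], lc, (.m ld la), (.m lb lf)⟩,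
  ⟨.negSucc 1, false, [(false, la)], lc, (.m ld le), (.m lb lf)⟩,
  ⟨.ofNat 4, true, [(true, lf)], le, (.m lc ld), (.m la lb)⟩]

/-- part 8 of the certificate -/
def cert8 : List Inst := [
  ⟨.ofNat 4, true, [], lc, (.m le (.m la (.m ld lb))), lf⟩,
  ⟨.ofNat 8, true, [(false, la), (true, lf)], lc, (.m lb ld), le⟩,
  ⟨.negSucc 1, false, [(false, (.m la le)), (true, lf)], lc, ld, lb⟩,
  ⟨.ofNat 6, true, [(false, lc), (false, la)], (.m ld le), lb, lf⟩,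
  ⟨.ofNat 6, false, [(false, lc), (true, lf), (false, le)], la, ld, lb⟩,
  ⟨.ofNat 8, false, [], la, le, (.m (.m (.m lc lb) ld) lf)⟩,
  ⟨.ofNat 2, true, [(true, lf)], (.m lc (.m ld le)), la, lb⟩,
  ⟨.negSucc 3, false, [], lc, (.m ld le), (.m la (.m lb lf))⟩,
  ⟨.ofNat 2, false, [(true, lf)], (.m lc (.m le la)), ld, lb⟩,
  ⟨.negSucc 1, true, [(false, lc)], (.m ld le), la, (.m lb lf)⟩,
  ⟨.ofNat 2, true, [(true, lf)], lc, (.m (.m ld la) lb), le⟩,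
  ⟨.ofNat 2, true, [], la, (.m lb (.m (.m lc ld) le)), lf⟩,
  ⟨.ofNat 2, true, [(true, lb), (false, (.m la lc))], le, ld, lf⟩,
  ⟨.negSucc 5, true, [(false, (.m le (.m lc la)))], ld, lb, lf⟩,
  ⟨.negSucc 3, false, [(false, le), (true, lf)], la, (.m lc ld), lb⟩,
  ⟨.negSucc 9, false, [(true, lf)], la, le, (.m (.m lc lb) ld)⟩,
  ⟨.ofNat 6, true, [(false, lc), (false, le)], ld, la, (.m lb lf)⟩,
  ⟨.negSucc 3, true, [(true, lf), (false, (.m lc ld))], le, la, lb⟩,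
  ⟨.negSucc 7, false, [], (.m la lc), le, (.m ld (.m lb lf))⟩,
  ⟨.negSucc 1, true, [(true, (.m le lb)), (true, lf)], lc, la, ld⟩,
  ⟨.ofNat 2, true, [], lc, (.m (.m ld la) (.m lb le)), lf⟩,
  ⟨.ofNat 2, true, [(true, le), (true, lf)], lc, la, (.m lb ld)⟩,
  ⟨.negSucc 5, true, [(false, la), (true, lf), (false, le)], lc, lb, ld⟩,
  ⟨.negSucc 3, true, [(true, lf)], lc, la, (.m (.m le lb) ld)⟩,
  ⟨.negSucc 1, true, [(false, (.m la ld)), (false, lc)], le, lb, lf⟩,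
  ⟨.ofNat 2, false, [(true, (.m lc ld)), (true, lf)], la, le, lb⟩,
  ⟨.ofNat 4, true, [(true, lf)], (.m lc ld), la, (.m le lb)⟩,
  ⟨.negSucc 1, true, [], lc, (.m (.m la ld) (.m lb le)), lf⟩,
  ⟨.negSucc 3, false, [], lc, (.m la le), (.m lb (.m ld lf))⟩,
  ⟨.negSucc 5, true, [], lc, (.m le (.m (.m ld la) lb)), lf⟩,
  ⟨.negSucc 1, false, [], la, (.m lc (.m ld le)), (.m lb lf)⟩,
  ⟨.negSucc 5, true, [], (.m lc le), (.m la (.m ld lb)), lf⟩,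
  ⟨.negSucc 1, false, [(false, (.m lc ld))], la, le, (.m lb lf)⟩,
  ⟨.ofNat 2, false, [(true, lf)], lc, le, (.m la (.m lb ld))⟩,
  ⟨.negSucc 1, false, [(true, lf)], (.m (.m lc la) ld), le, lb⟩,
  ⟨.negSucc 1, true, [(false, la)], lc, lb, (.m (.m ld le) lf)⟩,
  ⟨.negSucc 5, true, [], lc, (.m la (.m (.m ld lb) le)), lf⟩,
  ⟨.negSucc 3, false, [(false, lc)], la, (.m ld le), (.m lb lf)⟩,
  ⟨.ofNat 4, true, [(false, lc)], (.m ld le), (.m la lb), lf⟩,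
  ⟨.negSucc 5, true, [], le, (.m la lb), (.m lc (.m ld lf))⟩,
  ⟨.negSucc 5, false, [], (.m lc ld), le, (.m (.m la lb) lf)⟩,
  ⟨.ofNat 2, false, [(false, ld), (false, lc)], la, le, (.m lf lb)⟩,
  ⟨.ofNat 2, false, [], lc, (.m (.m le la) lf), (.m lb ld)⟩,
  ⟨.negSucc 1, false, [(true, (.m lb lf))], le, (.m lc ld), la⟩,
  ⟨.negSucc 1, false, [(false, lc)], la, le, (.m lb (.m ld lf))⟩,
  ⟨.ofNat 4, true, [], le, (.m lc ld), (.m (.m la lb) lf)⟩,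
  ⟨.negSucc 3, false, [(false, le), (true, lb), (true, lf)], lc, ld, la⟩,
  ⟨.ofNat 2, false, [(true, (.m lb lf)), (false, lc)], ld, le, la⟩,
  ⟨.negSucc 0, true, [(false, le)], lc, la, (.m (.m lb ld) lf)⟩,
  ⟨.ofNat 2, true, [(false, la)], lc, (.m le lb), (.m ld lf)⟩]

/-- part 9 of the certificate -/
def cert9 : List Inst := [
  ⟨.ofNat 2, false, [(true, (.m lb lf)), (false, la)], lc, le, ld⟩,
  ⟨.negSucc 1, true, [(true, lf), (false, la)], lc, (.m ld lb), le⟩,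
  ⟨.negSucc 1, false, [], lc, (.m le (.m la lf)), (.m lb ld)⟩,
  ⟨.ofNat 2, true, [(true, lb), (true, lf)], lc, (.m la ld), le⟩,
  ⟨.negSucc 1, true, [], (.m (.m lc ld) le), la, (.m lb lf)⟩,
  ⟨.negSucc 1, false, [(false, la), (false, lc)], ld, le, (.m lb lf)⟩,
  ⟨.negSucc 1, true, [], lc, (.m ld (.m le la)), (.m lb lf)⟩,
  ⟨.negSucc 1, true, [], la, (.m (.m lc lb) le), (.m ld lf)⟩,
  ⟨.ofNat 6, true, [(false, (.m lc le)), (false, la)], ld, lb, lf⟩,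
  ⟨.negSucc 5, true, [(false, lc), (false, le)], ld, (.m la lb), lf⟩,
  ⟨.negSucc 1, false, [(true, lf)], la, lc, (.m ld (.m le lb))⟩,
  ⟨.ofNat 6, false, [(true, (.m lb lf)), (false, lc)], la, le, ld⟩,
  ⟨.negSucc 5, false, [], (.m la lb), le, (.m (.m lc ld) lf)⟩,
  ⟨.ofNat 2, true, [(true, (.m ld (.m le lf)))], lc, la, lb⟩,
  ⟨.ofNat 4, false, [], (.m (.m la lc) ld), le, (.m lb lf)⟩,
  ⟨.negSucc 7, false, [(false, ld), (false, lc)], la, le, (.m lb lf)⟩,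
  ⟨.ofNat 2, false, [(false, lc)], la, ld, (.m le (.m lb lf))⟩,
  ⟨.ofNat 4, true, [], lc, (.m (.m la le) ld), (.m lb lf)⟩,
  ⟨.negSucc 7, true, [(true, (.m lb lf)), (false, lc)], ld, la, le⟩,
  ⟨.ofNat 2, true, [], lc, (.m la ld), (.m (.m le lb) lf)⟩,
  ⟨.negSucc 1, true, [(false, ld), (false, lc), (false, la)], le, lb, lf⟩,
  ⟨.negSucc 1, true, [], lc, la, (.m (.m lb le) (.m ld lf))⟩,
  ⟨.negSucc 5, true, [(false, la)], le, (.m (.m lc lb) ld), lf⟩,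
  ⟨.negSucc 3, true, [(false, le)], (.m lc ld), (.m la lb), lf⟩,
  ⟨.negSucc 1, false, [(true, lf)], (.m le (.m lc la)), ld, lb⟩,
  ⟨.ofNat 2, true, [(true, lf), (false, la), (false, lc)], le, lb, ld⟩,
  ⟨.ofNat 2, true, [(false, la)], lc, (.m ld le), (.m lb lf)⟩,
  ⟨.ofNat 4, true, [(true, lf), (false, (.m lc la))], ld, lb, le⟩,
  ⟨.negSucc 7, true, [], (.m la le), (.m lc (.m ld lb)), lf⟩,
  ⟨.ofNat 6, true, [(true, ld), (true, (.m lb lf))], le, la, lc⟩,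
  ⟨.ofNat 8, false, [], (.m la lc), le, (.m (.m ld lb) lf)⟩,
  ⟨.negSucc 3, true, [(true, lf), (false, le)], lc, (.m la lb), ld⟩,
  ⟨.ofNat 2, true, [], (.m lc le), (.m (.m la ld) lb), lf⟩,
  ⟨.negSucc 1, true, [(false, lc), (false, la)], le, (.m ld lb), lf⟩,
  ⟨.negSucc 1, true, [], la, (.m (.m lc lb) (.m ld le)), lf⟩,
  ⟨.ofNat 2, false, [], lc, le, (.m (.m (.m la ld) lb) lf)⟩,
  ⟨.ofNat 6, false, [(false, la)], lc, le, (.m ld (.m lb lf))⟩,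
  ⟨.negSucc 5, true, [(false, le)], lc, la, (.m ld (.m lb lf))⟩,
  ⟨.ofNat 6, false, [(false, lc)], ld, le, (.m la (.m lf lb))⟩,
  ⟨.ofNat 4, false, [(true, lf)], lc, le, (.m la (.m ld lb))⟩,
  ⟨.negSucc 3, true, [], (.m lc ld), (.m (.m la le) lb), lf⟩,
  ⟨.negSucc 5, true, [], (.m lc ld), (.m (.m la lb) le), lf⟩,
  ⟨.ofNat 2, false, [(false, lc), (false, la)], ld, (.m le lf), lb⟩,
  ⟨.ofNat 6, true, [], la, (.m (.m lc (.m lb ld)) le), lf⟩,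
  ⟨.negSucc 3, true, [], (.m lc (.m ld le)), la, (.m lb lf)⟩,
  ⟨.negSucc 3, true, [(true, lf)], lc, (.m ld la), (.m lb le)⟩,
  ⟨.ofNat 4, false, [(true, lf)], la, le, (.m lc (.m ld lb))⟩,
  ⟨.negSucc 1, false, [(false, ld), (false, lc)], la, (.m le lf), lb⟩,
  ⟨.negSucc 0, true, [(false, (.m la lc)), (false, le)], ld, lb, lf⟩,
  ⟨.ofNat 6, true, [(false, le)], lc, (.m la lb), (.m ld lf)⟩]

/-- part 10 of the certificate -/
def cert10 : List Inst := [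
  ⟨.negSucc 3, true, [(true, lf)], la, (.m lc (.m ld lb)), le⟩,
  ⟨.ofNat 4, true, [(false, (.m lc la))], le, ld, (.m lb lf)⟩,
  ⟨.ofNat 2, true, [], lc, (.m la le), (.m ld (.m lb lf))⟩,
  ⟨.negSucc 3, false, [(true, (.m ld lf))], la, lc, (.m le lb)⟩,
  ⟨.negSucc 1, true, [(false, lc), (true, lf)], le, la, (.m lb ld)⟩,
  ⟨.ofNat 6, false, [(true, lf), (false, la)], lb, lc, (.m ld le)⟩,
  ⟨.ofNat 2, true, [], (.m le la), (.m lb lc), (.m ld lf)⟩,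
  ⟨.ofNat 4, true, [(false, la)], le, lc, (.m (.m lb ld) lf)⟩,
  ⟨.negSucc 1, true, [(false, la)], lc, (.m le (.m lb ld)), lf⟩,
  ⟨.ofNat 2, false, [(true, lf), (false, le)], la, lc, (.m ld lb)⟩,
  ⟨.ofNat 4, true, [], (.m la lc), (.m (.m le lb) ld), lf⟩,
  ⟨.negSucc 1, false, [(true, lb), (true, lf)], lc, (.m le ld), la⟩,
  ⟨.negSucc 3, true, [], la, (.m (.m (.m lc lb) le) ld), lf⟩,
  ⟨.negSucc 13, true, [(true, lf), (false, lc)], le, (.m la ld), lb⟩,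
  ⟨.ofNat 4, false, [], la, (.m (.m lc ld) le), (.m lb lf)⟩,
  ⟨.ofNat 2, true, [(true, ld), (false, la)], lc, lb, (.m le lf)⟩,
  ⟨.ofNat 2, false, [], lc, (.m ld le), (.m (.m la lb) lf)⟩,
  ⟨.negSucc 3, false, [(true, lf)], la, lc, (.m ld (.m lb le))⟩,
  ⟨.ofNat 2, true, [], (.m lc le), la, (.m lb (.m ld lf))⟩,
  ⟨.ofNat 6, false, [(false, (.m ld le)), (false, lc)], la, lf, lb⟩,
  ⟨.ofNat 2, false, [(false, lc), (false, la)], le, ld, (.m lb lf)⟩,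
  ⟨.negSucc 4, true, [(false, lc), (false, le)], la, (.m ld lb), lf⟩,
  ⟨.negSucc 1, false, [(true, ld)], lc, la, (.m le (.m lb lf))⟩,
  ⟨.negSucc 1, false, [(true, lf), (false, la), (false, lc)], lb, le, ld⟩,
  ⟨.negSucc 1, true, [], le, (.m (.m la lc) ld), (.m lb lf)⟩,
  ⟨.negSucc 7, false, [(true, lf), (false, (.m la lc))], ld, le, lb⟩,
  ⟨.ofNat 2, true, [(true, le), (true, lf)], lc, (.m la ld), lb⟩,
  ⟨.ofNat 4, false, [(true, lf)], (.m la lc), ld, (.m le lb)⟩,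
  ⟨.ofNat 4, true, [(false, la)], (.m lc (.m ld le)), lb, lf⟩,
  ⟨.ofNat 2, true, [(true, lf)], lc, (.m (.m ld la) le), lb⟩,
  ⟨.ofNat 2, false, [(false, (.m la lb))], le, lc, (.m ld lf)⟩,
  ⟨.ofNat 5, true, [(false, le)], la, (.m (.m lc lb) ld), lf⟩,
  ⟨.negSucc 1, false, [(false, le), (false, (.m la lb))], lc, lf, ld⟩,
  ⟨.negSucc 5, false, [(false, lc), (true, lf)], la, le, (.m ld lb)⟩,
  ⟨.negSucc 1, true, [(false, la)], le, (.m lc lb), (.m ld lf)⟩,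
  ⟨.ofNat 2, false, [(true, (.m ld lf))], le, la, (.m lc lb)⟩,
  ⟨.negSucc 1, false, [(true, lf)], (.m la lc), ld, (.m lb le)⟩,
  ⟨.negSucc 3, false, [(true, lf)], (.m le la), lc, (.m lb ld)⟩,
  ⟨.ofNat 2, false, [(false, la)], (.m lb lc), le, (.m lf ld)⟩,
  ⟨.negSucc 1, true, [], la, (.m lc (.m le (.m lb ld))), lf⟩,
  ⟨.ofNat 6, true, [(true, lf)], lc, la, (.m le (.m ld lb))⟩,
  ⟨.negSucc 9, true, [(true, lf), (false, le)], lc, (.m la ld), lb⟩,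
  ⟨.ofNat 4, false, [(true, lf), (false, (.m la lb))], lc, le, ld⟩,
  ⟨.ofNat 4, true, [(false, le), (true, lf)], (.m lc ld), la, lb⟩,
  ⟨.ofNat 2, false, [(false, la)], lc, (.m le ld), (.m lb lf)⟩,
  ⟨.negSucc 5, false, [(true, lf)], lc, le, (.m (.m ld la) lb)⟩,
  ⟨.negSucc 1, true, [], lc, (.m (.m (.m ld la) le) lb), lf⟩,
  ⟨.negSucc 1, true, [(false, la)], le, (.m (.m lb lc) ld), lf⟩,
  ⟨.negSucc 5, false, [], la, (.m lc le), (.m lb (.m ld lf))⟩,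
  ⟨.negSucc 1, true, [(true, lf), (false, (.m la le))], lc, lb, ld⟩]

/-- part 11 of the certificate -/
def cert11 : List Inst := [
  ⟨.ofNat 4, true, [(false, le)], (.m lc la), (.m lb ld), lf⟩,
  ⟨.negSucc 1, false, [(true, lf), (false, lc)], ld, la, (.m lb le)⟩,
  ⟨.ofNat 4, true, [(false, la), (true, lf)], lc, (.m lb le), ld⟩,
  ⟨.negSucc 4, true, [(false, la), (false, le)], lc, (.m lb ld), lf⟩,
  ⟨.negSucc 1, true, [], la, (.m (.m (.m lb le) lc) ld), lf⟩,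
  ⟨.ofNat 6, true, [(true, lf), (false, la)], (.m lc le), lb, ld⟩,
  ⟨.ofNat 2, true, [(false, lc)], la, (.m (.m le lb) lf), ld⟩,
  ⟨.ofNat 12, true, [(true, lf), (false, lc)], le, la, (.m lb ld)⟩,
  ⟨.ofNat 2, true, [], lc, (.m la (.m (.m ld le) lf)), lb⟩,
  ⟨.negSucc 1, true, [(true, lf), (false, lc)], ld, la, (.m le lb)⟩,
  ⟨.ofNat 2, false, [(true, (.m le lf)), (false, lc)], la, ld, lb⟩,
  ⟨.ofNat 4, true, [(true, lf)], lc, (.m (.m ld le) la), lb⟩,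
  ⟨.ofNat 2, false, [(false, la), (true, lf), (false, lc)], lb, le, ld⟩,
  ⟨.ofNat 2, true, [(true, (.m ld lf)), (false, la)], lc, lb, le⟩,
  ⟨.ofNat 4, true, [(false, la)], (.m lc ld), (.m lb le), lf⟩,
  ⟨.negSucc 9, true, [(true, lf)], lc, (.m la (.m ld lb)), le⟩,
  ⟨.ofNat 2, true, [], lc, (.m (.m la lb) le), (.m ld lf)⟩,
  ⟨.negSucc 1, false, [(false, lc), (true, lf)], (.m ld la), le, lb⟩,
  ⟨.ofNat 4, true, [], lc, (.m la ld), (.m (.m lb le) lf)⟩,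
  ⟨.negSucc 1, true, [(false, la), (true, lf), (false, lc)], ld, lb, le⟩,
  ⟨.negSucc 1, false, [(false, (.m lc lb)), (false, la)], le, lf, ld⟩,
  ⟨.negSucc 3, true, [(true, (.m ld lb)), (true, lf)], lc, la, le⟩,
  ⟨.ofNat 4, true, [(true, lf)], le, (.m la lb), (.m lc ld)⟩,
  ⟨.ofNat 2, false, [(true, lf)], lc, (.m le la), (.m lb ld)⟩,
  ⟨.ofNat 6, false, [(false, lb), (false, la), (true, lf)], lc, le, ld⟩,
  ⟨.ofNat 4, false, [(true, lf)], (.m lc la), le, (.m ld lb)⟩,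
  ⟨.ofNat 4, true, [(true, lf)], le, (.m la (.m lc ld)), lb⟩,
  ⟨.negSucc 3, true, [(true, (.m lb (.m ld lf)))], lc, la, le⟩,
  ⟨.negSucc 4, true, [(false, le)], la, (.m lc (.m ld lb)), lf⟩,
  ⟨.ofNat 4, true, [], le, (.m la lc), (.m (.m lb ld) lf)⟩,
  ⟨.ofNat 4, true, [(false, lc), (true, lf), (false, la)], ld, lb, le⟩,
  ⟨.negSucc 1, true, [], la, (.m lb (.m lc (.m le lf))), ld⟩]

/-- the certificate -/
def certs : List (List Inst) := [cert0, cert1, cert2, cert3, cert4, cert5, cert6, cert7, cert8, cert9, cert10, cert11]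

end Pool.Agent.W2helper35.AltTor
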