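import Pool.Agent.W2helper35.AltTor.Model
set_option autoImplicit false
set_option maxRecDepth 100000

/-!
# The value of `f` in the model
-/

namespace Pool.Agent.W2helper35.AltTor
open Pool.Agent.Helper805.Nuc.Tens

/-- the `d`-coordinate of a sparse integer vector -/
def lk : List (ℕ × ℤ) → ℕ → ℤ
  | [], _ => 0
  | (i, c) :: u, d => bif Nat.beq i d then Int.add c (lk u d) else lk u d

/-- add a term unless it is zero -/
def cns (i : ℕ) (c : ℤ) (u : List (ℕ × ℤ)) : List (ℕ × ℤ) := bif Tri.isz c then u else (i, c) :: u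

/-- product of sparse integer vectors -/
def spm : List (ℕ × ℕ × ℕ × ℤ) → List (ℕ × ℤ) → List (ℕ × ℤ) → List (ℕ × ℤ)
  | [], _, _ => []
  | (a, b, c, g) :: L, u, v =>
    cns c (Int.mul g (Int.add (Int.mul (lk u a) (lk v b)) (Int.mul (lk u b) (lk v a)))) (spm L u v)

/-- sparse value of a monomial at the basis vectors `e_i` -/
def sev : T → List (ℕ × ℤ)
  | .v i => [(i, .ofNat 1)]
  | .m s t => spm SC (sev s) (sev t)

section
variable {k : Type} [CommRing k]

theorem lk_cns (i : ℕ) (c : ℤ) (u : List (ℕ × ℤ)) (d : ℕ) :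
    lk (cns i c u) d = (bif Nat.beq i d then c else 0) + lk u d := by
  unfold cns
  cases h : Tri.isz c with
  | true =>
    have hc : c = 0 := by
      cases c with
      | ofNat n => have := Nat.eq_of_beq_eq_true h; subst this; rfl
      | negSucc n => simp [Tri.isz] at h
    subst hc
    cases Nat.beq i d <;> simp
  | false =>
    simp only [cond_false, lk]
    cases Nat.beq i d with
    | true => rfl
    | false => simp

theorem lk_spm (L : List (ℕ × ℕ × ℕ × ℤ)) (u v : List (ℕ × ℤ)) (d : ℕ) :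
    ((lk (spm L u v) d : ℤ) : k) = bl L (fun i => ((lk u i : ℤ) : k)) (fun i => ((lk v i : ℤ) : k)) d := by
  induction L with
  | nil => simp [spm, bl, lk]
  | cons q L ih =>
    obtain ⟨a, b, c, g⟩ := q
    simp only [spm, bl, lk_cns, ← ih]
    cases Nat.beq c d with
    | true =>
      simp only [cond_true]
      rw [Int.cast_add]
      congr 1
      show ((g * ((lk u a) * (lk v b) + (lk u b) * (lk v a)) : ℤ) : k) = _
      push_cast; rfl
    | false => simp

/-- the basis vectors -/
def bas (k : Type) [CommRing k] (i : ℕ) : Al k := fun d => bif Nat.beq i d then 1 else 0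

theorem sev_ev (t : T) (d : ℕ) : ((lk (sev t) d : ℤ) : k) = t.ev (bas k) d := by
  induction t generalizing d with
  | v i =>
    show ((bif Nat.beq i d then Int.add 1 0 else 0 : ℤ) : k) = bas k i d
    unfold bas
    cases Nat.beq i d <;> simp
  | m s t ihs iht =>
    have h1 : sev (.m s t) = spm SC (sev s) (sev t) := rfl
    have h2 : (T.m s t).ev (bas k) = s.ev (bas k) * t.ev (bas k) := rfl
    rw [h1, h2, Al.mul_def, lk_spm]
    have h3 : (fun i => ((lk (sev s) i : ℤ) : k)) = s.ev (bas k) := funext ihs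
    have h4 : (fun i => ((lk (sev t) i : ℤ) : k)) = t.ev (bas k) := funext iht
    rw [h3, h4]

/-- the `48`-th coordinate of a formal sum -/
noncomputable def top (h : ℕ → ℕ) : List (ℤ × T) → ℤ
  | [] => 0
  | (c, t) :: L => Int.add (Int.mul c (lk (sev (T.ren h t)) 48)) (top h L)

theorem Al.zsmul_apply (c : ℤ) (x : Al k) (d : ℕ) : (c • x) d = (c : k) * x d := by
  show c • (x d) = _
  rw [zsmul_eq_mul]

theorem top_ev (h : ℕ → ℕ) (L : List (ℤ × T)) :
    ((top h L : ℤ) : k) = evL (fun i => bas k (h i)) L 48 := by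
  induction L with
  | nil => show ((0 : ℤ) : k) = 0; exact Int.cast_zero
  | cons q L ih =>
    obtain ⟨c, t⟩ := q
    show ((c * (lk (sev (T.ren h t)) 48) + top h L : ℤ) : k) = (c • t.ev (fun i => bas k (h i))) 48 +
      evL (fun i => bas k (h i)) L 48
    rw [← ih, Al.zsmul_apply, ← T.ev_ren, ← sev_ev]
    push_cast; rfl

theorem tops : (top (hh 0 1 2 3 4 5) F0 - top (hh 1 0 2 3 4 5) F0 - top (hh 0 1 3 2 4 5) F0
    + top (hh 1 0 3 2 4 5) F0 - top (hh 0 1 2 3 5 4) F0 + top (hh 1 0 2 3 5 4) F0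
    + top (hh 0 1 3 2 5 4) F0 - top (hh 1 0 3 2 5 4) F0) = -4 := by decide +kernel

theorem ff_bas (h3 : (3 : k) = 0) : ff (bas k) 48 = -1 := by
  have h := congrArg (Int.cast : ℤ → k) tops
  rw [Int.cast_sub, Int.cast_add, Int.cast_add, Int.cast_sub, Int.cast_add, Int.cast_sub, Int.cast_sub,
    top_ev, top_ev, top_ev, top_ev, top_ev, top_ev, top_ev, top_ev] at h
  have h4 : ((-4 : ℤ) : k) = -1 := by
    have : ((-4 : ℤ) : k) = -1 - 3 := by push_cast; ring
    rw [this, h3, sub_zero]
  rw [h4] at h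
  exact h

end

end Pool.Agent.W2helper35.AltTor
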