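import Pool.Agent.W2helper35.AltTor.Eval
set_option autoImplicit false

/-!
# Torsion in the free alternative algebras
-/

namespace Pool.Agent.W2helper35.AltTor
open Pool.Agent.Helper805.Nuc.Tens Pool.Agent.Helper805.Nuc.Free

section hom
variable {Φ A B : Type} [CommRing Φ] [NonUnitalNonAssocRing A] [Module Φ A] [NonUnitalNonAssocRing B] [Module Φ B]

theorem map_ev (φ : A →ₙₐ[Φ] B) (a : ℕ → A) (t : T) : φ (t.ev a) = t.ev (fun i => φ (a i)) := by
  induction t with
  | v i => rfl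
  | m s t ihs iht =>
    show φ (s.ev a * t.ev a) = _
    rw [map_mul, ihs, iht]; rfl

theorem map_evL (φ : A →ₙₐ[Φ] B) (a : ℕ → A) (L : List (ℤ × T)) :
    φ (evL a L) = evL (fun i => φ (a i)) L := by
  induction L with
  | nil => exact map_zero φ
  | cons q L ih =>
    show φ (q.1 • q.2.ev a + evL a L) = _
    rw [map_add, map_zsmul, map_ev, ih]; rfl

theorem map_ff (φ : A →ₙₐ[Φ] B) (a : ℕ → A) : φ (ff a) = ff (fun i => φ (a i)) := by
  unfold ff
  simp only [map_sub, map_add, map_evL]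

end hom

section main
variable (Φ : Type) [CommRing Φ] (X : Type) (g : ℕ → X)

/-- the torsion element -/
noncomputable def tor : FreeAlt Φ X := (2 : ℤ) • ff (fun i => FreeAlt.gen (g i))

theorem three_tor : (3 : ℤ) • tor Φ X g = 0 := by
  unfold tor
  rw [← mul_smul]
  exact six_ff FreeAlt.isAlt _

variable {Φ X g}

/-- only the letters `0, ..., 5` matter -/
theorem ev_congr {R : Type} [NonUnitalNonAssocRing R] (a b : ℕ → R) (t : T) (ht : t.ok = true)
    (h : ∀ i < 6, a i = b i) : t.ev a = t.ev b := by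
  induction t with
  | v i =>
    have h' : i < 6 := by simpa [T.ok, Nat.blt_eq] using ht
    exact h i h'
  | m s t ihs iht =>
    have h' : (s.ok && t.ok) = true := ht
    rw [Bool.and_eq_true] at h'
    show s.ev a * t.ev a = s.ev b * t.ev b
    rw [ihs h'.1, iht h'.2]

theorem evL_congr {R : Type} [NonUnitalNonAssocRing R] (a b : ℕ → R) (L : List (ℤ × T))
    (hL : ∀ q ∈ L, q.2.ok = true) (h : ∀ i < 6, a i = b i) : evL a L = evL b L := by
  induction L with
  | nil => rfl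
  | cons q L ih =>
    show q.1 • q.2.ev a + evL a L = q.1 • q.2.ev b + evL b L
    rw [ev_congr a b q.2 (hL q (List.mem_cons_self ..)) h, ih (fun q hq => hL q (List.mem_cons_of_mem _ hq))]

theorem F0_ok : ∀ q ∈ F0, q.2.ok = true := by decide +kernel

theorem hh_lt (p q r s t u : ℕ) (hp : p < 6) (hq : q < 6) (hr : r < 6) (hs : s < 6) (ht : t < 6) (hu : u < 6)
    (i : ℕ) : hh p q r s t u i < 6 := by
  unfold hh
  split <;> assumption

theorem ff_congr {R : Type} [NonUnitalNonAssocRing R] (a b : ℕ → R) (h : ∀ i < 6, a i = b i) : ff a = ff b := by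
  have key : ∀ p q r s t u : ℕ, p < 6 → q < 6 → r < 6 → s < 6 → t < 6 → u < 6 →
      evL (fun i => a (hh p q r s t u i)) F0 = evL (fun i => b (hh p q r s t u i)) F0 := by
    intro p q r s t u hp hq hr hs ht hu
    apply evL_congr _ _ _ F0_ok
    intro i _
    exact h _ (hh_lt p q r s t u hp hq hr hs ht hu i)
  unfold ff
  rw [key 0 1 2 3 4 5, key 1 0 2 3 4 5, key 0 1 3 2 4 5, key 1 0 3 2 4 5, key 0 1 2 3 5 4, key 1 0 2 3 5 4,
    key 0 1 3 2 5 4, key 1 0 3 2 5 4] <;> norm_num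

/-- The torsion element is detected by a homomorphism to an algebra over `k` if `3 = 0` in `k`. -/
theorem exists_hom (hg : Set.InjOn g (Set.Iio 6)) (k : Type) [CommRing k] [Nontrivial k] [Algebra Φ k]
    (h3 : (3 : k) = 0) : ∃ φ : FreeAlt Φ X →ₙₐ[Φ] Al k, φ (tor Φ X g) ≠ 0 := by
  classical
  let f : X → Al k := fun x => if h : ∃ i, i < 6 ∧ g i = x then bas k h.choose else 0
  have hf : ∀ i < 6, f (g i) = bas k i := by
    intro i hi
    have h : ∃ j, j < 6 ∧ g j = g i := ⟨i, hi, rfl⟩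
    have h1 : f (g i) = bas k h.choose := dif_pos h
    have h2 := h.choose_spec
    rw [h1, hg (Set.mem_Iio.2 h2.1) (Set.mem_Iio.2 hi) h2.2]
  refine ⟨FreeAlt.lift (Al.isAlt h3) f, ?_⟩
  intro h0
  unfold tor at h0
  rw [map_zsmul, map_ff] at h0
  rw [ff_congr _ (bas k) (fun i hi => by rw [FreeAlt.lift_gen, hf i hi])] at h0
  have h1 := congrFun h0 48
  rw [Al.zsmul_apply, ff_bas h3] at h1
  have h2 : ((2 : ℤ) : k) * -1 = 1 := by
    have : ((2 : ℤ) : k) * -1 = 1 - 3 := by push_cast; ring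
    rw [this, h3, sub_zero]
  rw [h2] at h1
  exact one_ne_zero h1

theorem tor_ne_zero (hg : Set.InjOn g (Set.Iio 6)) (h3 : ¬ IsUnit (3 : Φ)) : tor Φ X g ≠ 0 := by
  obtain ⟨m, hm, h⟩ := exists_max_ideal_of_mem_nonunits h3
  have h3' : (3 : Φ ⧸ m) = 0 := by
    have h4 : (Ideal.Quotient.mk m) 3 = 0 := Ideal.Quotient.eq_zero_iff_mem.2 h
    rwa [map_ofNat] at h4
  have : Nontrivial (Φ ⧸ m) := Ideal.Quotient.nontrivial_iff.2 hm.ne_top
  obtain ⟨φ, hφ⟩ := exists_hom (Φ := Φ) (X := X) hg (Φ ⧸ m) h3'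
  intro h0
  rw [h0, map_zero] at hφ
  exact hφ rfl

theorem flat_three (hg : Set.InjOn g (Set.Iio 6)) [Module.Flat Φ (FreeAlt Φ X)] : ∃ s : Φ, 9 * s = 3 := by
  have h0 : (3 : Φ) • tor Φ X g = 0 := by
    have h1 := three_tor Φ X g
    rw [← Int.cast_smul_eq_zsmul Φ] at h1
    push_cast at h1
    exact h1
  have h1 : ∑ i : Fin 1, (fun _ => (3 : Φ)) i • (fun _ : Fin 1 => tor Φ X g) i = 0 := by
    simpa using h0
  obtain ⟨n, a, y, h2, h4⟩ := Module.Flat.isTrivialRelation_of_sum_smul_eq_zero h1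
  have h2' : tor Φ X g = ∑ j, a 0 j • y j := h2 0
  have h4' : ∀ j, 3 * a 0 j = 0 := by
    intro j
    simpa using h4 j
  let I : Ideal Φ := Ideal.span (Set.range (a 0))
  have hI : ∀ x ∈ I, 3 * x = 0 := by
    intro x hx
    refine Submodule.span_induction ?_ ?_ ?_ ?_ hx
    · rintro _ ⟨j, rfl⟩; exact h4' j
    · exact mul_zero 3
    · intro x y _ _ hx hy; rw [mul_add, hx, hy, add_zero]
    · intro r x _ hx; rw [smul_eq_mul, mul_left_comm, hx, mul_zero]
  have htop : I ⊔ Ideal.span {3} = ⊤ := by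
    by_contra hne
    obtain ⟨m, hm, hle⟩ := Ideal.exists_le_maximal _ hne
    have h3m : (3 : Φ) ∈ m := hle (Ideal.mem_sup_right (Ideal.mem_span_singleton_self 3))
    have h3' : (3 : Φ ⧸ m) = 0 := by
      have h4 : (Ideal.Quotient.mk m) 3 = 0 := Ideal.Quotient.eq_zero_iff_mem.2 h3m
      rwa [map_ofNat] at h4
    have : Nontrivial (Φ ⧸ m) := Ideal.Quotient.nontrivial_iff.2 hm.ne_top
    obtain ⟨φ, hφ⟩ := exists_hom (Φ := Φ) (X := X) hg (Φ ⧸ m) h3'
    apply hφ
    rw [h2', map_sum]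
    apply Finset.sum_eq_zero
    intro j _
    rw [map_smul]
    funext d
    rw [Al.smul_def]
    have h5 : a 0 j ∈ m := hle (Ideal.mem_sup_left (Ideal.subset_span ⟨j, rfl⟩))
    have h6 : algebraMap Φ (Φ ⧸ m) (a 0 j) = 0 := Ideal.Quotient.eq_zero_iff_mem.2 h5
    rw [h6, zero_mul]; rfl
  have h1m : (1 : Φ) ∈ I ⊔ Ideal.span {3} := by rw [htop]; trivial
  obtain ⟨x, hx, y, hy, hxy⟩ := Submodule.mem_sup.1 h1m
  obtain ⟨s, rfl⟩ := Ideal.mem_span_singleton'.1 hy
  refine ⟨s, ?_⟩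
  have h7 := hI x hx
  have h8 : x = 1 - s * 3 := by rw [← hxy]; ring
  rw [h8] at h7
  have h9 : (3 : Φ) - 9 * s = 0 := by rw [← h7]; ring
  exact (sub_eq_zero.1 h9).symm

end main

end Pool.Agent.W2helper35.AltTor
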