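import Pool.Agent.W2helper35.AltTor.Check
set_option autoImplicit false
set_option maxRecDepth 100000

/-!
# A commutative alternative algebra of characteristic 3

The algebra `Al k` has as underlying module all functions `ℕ → k`; only the first 49 coordinates take part in the
multiplication.  Its structure constants are in the list `SC`.
-/

namespace Pool.Agent.W2helper35.AltTor
open Pool.Agent.Helper805.Nuc.Tens

/-- structure constants: `(a, b, c, g)` says that `e_a * e_b = e_b * e_a` has `e_c`-coordinate `g` -/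
def SC : List (ℕ × ℕ × ℕ × ℤ) := [
  (0, 1, 6, .ofNat 1), (0, 3, 7, .ofNat 1), (0, 4, 8, .ofNat 1), (0, 5, 9, .ofNat 1), (0, 11, 16, .negSucc 0),
  (0, 12, 19, .negSucc 0), (0, 14, 20, .negSucc 0), (0, 15, 21, .ofNat 1), (0, 24, 33, .negSucc 0), (0, 25, 33, .ofNat 1),
  (0, 26, 34, .ofNat 1), (0, 27, 35, .ofNat 1), (0, 28, 36, .ofNat 1), (0, 30, 38, .negSucc 0), (0, 31, 39, .negSucc 0),
  (0, 32, 40, .negSucc 0), (0, 41, 44, .ofNat 1), (0, 42, 45, .negSucc 0), (0, 43, 47, .ofNat 1), (1, 2, 10, .ofNat 1),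
  (1, 3, 11, .ofNat 1), (1, 7, 16, .ofNat 1), (1, 8, 17, .ofNat 1), (1, 9, 18, .ofNat 1), (1, 12, 25, .ofNat 1),
  (1, 13, 26, .ofNat 1), (1, 14, 27, .ofNat 1), (1, 15, 28, .ofNat 1), (1, 19, 33, .ofNat 1), (1, 23, 37, .ofNat 1),
  (1, 29, 41, .negSucc 0), (1, 31, 42, .negSucc 0), (1, 38, 44, .negSucc 0), (1, 39, 45, .ofNat 1), (1, 40, 46, .ofNat 1),
  (1, 47, 48, .ofNat 1), (2, 3, 12, .ofNat 1), (2, 4, 13, .ofNat 1), (2, 5, 14, .ofNat 1), (2, 7, 19, .ofNat 1),
  (2, 9, 20, .ofNat 1), (2, 11, 24, .ofNat 1), (2, 15, 30, .ofNat 1), (2, 16, 33, .negSucc 0), (2, 17, 34, .negSucc 0),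
  (2, 18, 35, .negSucc 0), (2, 21, 38, .ofNat 1), (2, 22, 39, .ofNat 1), (2, 23, 40, .ofNat 1), (2, 28, 41, .ofNat 1),
  (2, 36, 44, .negSucc 0), (2, 37, 46, .negSucc 0), (3, 4, 15, .ofNat 1), (3, 9, 22, .ofNat 1), (3, 10, 24, .negSucc 0),
  (3, 10, 25, .negSucc 0), (3, 13, 29, .ofNat 1), (3, 14, 31, .ofNat 1), (3, 17, 36, .negSucc 0), (3, 20, 39, .negSucc 0),
  (3, 27, 42, .ofNat 1), (3, 32, 43, .ofNat 1), (3, 34, 44, .ofNat 1), (3, 46, 48, .ofNat 1), (4, 6, 17, .negSucc 0),
  (4, 7, 21, .negSucc 0), (4, 9, 23, .ofNat 1), (4, 10, 26, .negSucc 0), (4, 11, 28, .negSucc 0), (4, 12, 29, .negSucc 0),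
  (4, 12, 30, .negSucc 0), (4, 14, 32, .ofNat 1), (4, 18, 37, .negSucc 0), (4, 19, 38, .ofNat 1), (4, 25, 41, .negSucc 0),
  (4, 31, 43, .negSucc 0), (4, 33, 44, .ofNat 1), (4, 35, 46, .ofNat 1), (4, 39, 47, .negSucc 0), (4, 45, 48, .ofNat 1),
  (5, 6, 18, .negSucc 0), (5, 7, 22, .negSucc 0), (5, 8, 23, .negSucc 0), (5, 10, 27, .negSucc 0), (5, 12, 31, .negSucc 0),
  (5, 13, 32, .negSucc 0), (5, 17, 37, .ofNat 1), (5, 19, 39, .ofNat 1), (5, 25, 42, .negSucc 0), (5, 29, 43, .ofNat 1),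
  (5, 33, 45, .negSucc 0), (5, 34, 46, .negSucc 0), (5, 38, 47, .ofNat 1), (5, 44, 48, .ofNat 1), (6, 13, 34, .negSucc 0),
  (6, 14, 35, .negSucc 0), (6, 15, 36, .negSucc 0), (6, 29, 44, .ofNat 1), (6, 30, 44, .negSucc 0), (6, 32, 46, .ofNat 1),
  (6, 43, 48, .negSucc 0), (7, 26, 44, .negSucc 0), (7, 27, 45, .ofNat 1), (7, 32, 47, .negSucc 0), (8, 10, 34, .ofNat 1),
  (8, 11, 36, .ofNat 1), (8, 14, 40, .ofNat 1), (8, 24, 44, .ofNat 1), (8, 27, 46, .negSucc 0), (8, 42, 48, .ofNat 1),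
  (9, 10, 35, .ofNat 1), (9, 13, 40, .negSucc 0), (9, 24, 45, .negSucc 0), (9, 26, 46, .ofNat 1), (9, 29, 47, .negSucc 0),
  (9, 30, 47, .ofNat 1), (9, 41, 48, .negSucc 0), (10, 15, 41, .negSucc 0), (10, 21, 44, .ofNat 1), (10, 22, 45, .negSucc 0),
  (11, 13, 41, .ofNat 1), (11, 20, 45, .ofNat 1), (11, 40, 48, .negSucc 0), (12, 37, 48, .ofNat 1), (13, 16, 44, .ofNat 1),
  (13, 22, 47, .ofNat 1), (14, 16, 45, .negSucc 0), (14, 21, 47, .negSucc 0), (14, 36, 48, .ofNat 1), (15, 20, 47, .negSucc 0),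
  (15, 35, 48, .negSucc 0), (16, 32, 48, .ofNat 1), (17, 31, 48, .ofNat 1), (18, 30, 48, .negSucc 0), (20, 28, 48, .ofNat 1),
  (21, 27, 48, .ofNat 1), (22, 26, 48, .negSucc 0), (23, 24, 48, .ofNat 1), (23, 25, 48, .negSucc 0)]

section mul
variable {k : Type} [CommRing k]

/-- the commutative multiplication with the given structure constants -/
def bl : List (ℕ × ℕ × ℕ × ℤ) → (ℕ → k) → (ℕ → k) → ℕ → k
  | [], _, _, _ => 0
  | (a, b, c, g) :: L, x, y, d => (bif Nat.beq c d then (g : k) * (x a * y b + x b * y a) else 0) + bl L x y d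

theorem bl_comm (L : List (ℕ × ℕ × ℕ × ℤ)) (x y : ℕ → k) (d : ℕ) : bl L x y d = bl L y x d := by
  induction L with
  | nil => rfl
  | cons q L ih =>
    obtain ⟨a, b, c, g⟩ := q
    simp only [bl, ih]
    cases Nat.beq c d <;> simp only [cond_true, cond_false]
    ring

theorem bl_add (L : List (ℕ × ℕ × ℕ × ℤ)) (x y z : ℕ → k) (d : ℕ) :
    bl L (x + y) z d = bl L x z d + bl L y z d := by
  induction L with
  | nil => simp [bl]
  | cons q L ih =>
    obtain ⟨a, b, c, g⟩ := q
    simp only [bl, ih]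
    cases Nat.beq c d <;> simp only [cond_true, cond_false, Pi.add_apply] <;> ring

theorem bl_zero (L : List (ℕ × ℕ × ℕ × ℤ)) (z : ℕ → k) (d : ℕ) :
    bl L 0 z d = 0 := by
  induction L with
  | nil => rfl
  | cons q L ih =>
    obtain ⟨a, b, c, g⟩ := q
    simp only [bl, ih]
    cases Nat.beq c d <;> simp

theorem bl_smul (L : List (ℕ × ℕ × ℕ × ℤ)) (r : k) (x z : ℕ → k) (d : ℕ) :
    bl L (fun i => r * x i) z d = r * bl L x z d := by
  induction L with
  | nil => simp [bl]
  | cons q L ih =>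
    obtain ⟨a, b, c, g⟩ := q
    simp only [bl, ih]
    cases Nat.beq c d <;> simp only [cond_true, cond_false] <;> ring

end mul

/-- the algebra -/
def Al (k : Type) : Type := ℕ → k

section ring
variable {k : Type} [CommRing k]

instance : AddCommGroup (Al k) := inferInstanceAs (AddCommGroup (ℕ → k))
instance : Mul (Al k) := ⟨fun x y => bl SC x y⟩

theorem Al.mul_def (x y : Al k) (d : ℕ) : (x * y) d = bl SC x y d := rfl

theorem Al.comm (x y : Al k) : x * y = y * x := funext fun d => bl_comm SC x y d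

theorem Al.add_mul' (x y z : Al k) : (x + y) * z = x * z + y * z := funext fun d => bl_add SC x y z d

instance : NonUnitalNonAssocRing (Al k) where
  left_distrib := fun x y z => by rw [Al.comm, Al.add_mul', Al.comm y x, Al.comm z x]
  right_distrib := Al.add_mul'
  zero_mul := fun x => funext fun d => bl_zero SC x d
  mul_zero := fun x => by rw [Al.comm]; exact funext fun d => bl_zero SC x d

variable {Φ : Type} [CommRing Φ] [Algebra Φ k]

noncomputable instance : Module Φ (Al k) := inferInstanceAs (Module Φ (ℕ → k))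

theorem Al.smul_def (r : Φ) (x : Al k) (d : ℕ) : (r • x) d = algebraMap Φ k r * x d := Algebra.smul_def _ _

instance : IsScalarTower Φ (Al k) (Al k) := ⟨fun r x y => by
  funext d
  show bl SC (r • x) y d = r • bl SC x y d
  have h : (r • x : Al k) = fun i => algebraMap Φ k r * x i := funext fun i => Al.smul_def r x i
  rw [h, bl_smul, Algebra.smul_def]⟩

instance : SMulCommClass Φ (Al k) (Al k) := ⟨fun r x y => by
  rw [smul_eq_mul, smul_eq_mul, Al.comm x (r • y), Al.comm x y]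
  exact (smul_mul_assoc r y x).symm⟩

end ring

/-! ### Formal cubic polynomials -/

/-- the value of a formal polynomial: `(p, q, r, c)` stands for `c * x_p * x_q * y_r` -/
def evP {k : Type} [CommRing k] (x y : ℕ → k) : List (ℕ × ℕ × ℕ × ℤ) → k
  | [] => 0
  | (p, q, r, c) :: L => (c : k) * (x p * x q * y r) + evP x y L

/-- insertion of a term -/
def insP (p q r : ℕ) (c : ℤ) : List (ℕ × ℕ × ℕ × ℤ) → List (ℕ × ℕ × ℕ × ℤ)
  | [] => [(p, q, r, c)]
  | (p', q', r', c') :: L =>
    bif (Nat.beq p p' && Nat.beq q q') && Nat.beq r r' then (p', q', r', Int.add c c') :: L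
    else (p', q', r', c') :: insP p q r c L

/-- insertion with ordering of the first two indices -/
def insQ (p q r : ℕ) (c : ℤ) (L : List (ℕ × ℕ × ℕ × ℤ)) : List (ℕ × ℕ × ℕ × ℤ) :=
  bif Nat.ble p q then insP p q r c L else insP q p r c L

section pol
variable {k : Type} [CommRing k] (x y : ℕ → k)

theorem evP_insP (p q r : ℕ) (c : ℤ) (L : List (ℕ × ℕ × ℕ × ℤ)) :
    evP x y (insP p q r c L) = (c : k) * (x p * x q * y r) + evP x y L := by
  induction L with
  | nil => rfl
  | cons s L ih =>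
    obtain ⟨p', q', r', c'⟩ := s
    simp only [insP]
    cases h : ((Nat.beq p p' && Nat.beq q q') && Nat.beq r r') with
    | true =>
      rw [Bool.and_eq_true, Bool.and_eq_true, Nat.beq_eq, Nat.beq_eq, Nat.beq_eq] at h
      obtain ⟨⟨rfl, rfl⟩, rfl⟩ := h
      simp only [cond_true, evP]
      have : ((Int.add c c' : ℤ) : k) = (c : k) + (c' : k) := Int.cast_add c c'
      rw [this]; ring
    | false =>
      simp only [cond_false, evP, ih]
      ring

theorem evP_insQ (p q r : ℕ) (c : ℤ) (L : List (ℕ × ℕ × ℕ × ℤ)) :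
    evP x y (insQ p q r c L) = (c : k) * (x p * x q * y r) + evP x y L := by
  unfold insQ
  cases Nat.ble p q with
  | true => exact evP_insP x y p q r c L
  | false =>
    rw [cond_false, evP_insP]; ring

/-- adds `g * (x * x)_a * y_b` to the formal polynomial `P` -/
def addL1 (a b : ℕ) (g : ℤ) : List (ℕ × ℕ × ℕ × ℤ) → List (ℕ × ℕ × ℕ × ℤ) → List (ℕ × ℕ × ℕ × ℤ)
  | [], P => P
  | (p, q, r, h) :: L, P =>
    bif Nat.beq r a then insQ p q b (Int.mul g (Int.mul h (.ofNat 2))) (addL1 a b g L P) else addL1 a b g L P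

theorem evP_addL1 (a b : ℕ) (g : ℤ) (L P : List (ℕ × ℕ × ℕ × ℤ)) :
    evP x y (addL1 a b g L P) = (g : k) * (bl L x x a * y b) + evP x y P := by
  induction L with
  | nil => simp [addL1, bl]
  | cons s L ih =>
    obtain ⟨p, q, r, h⟩ := s
    simp only [addL1, bl]
    cases Nat.beq r a with
    | true =>
      simp only [cond_true, evP_insQ, ih]
      have : ((Int.mul g (Int.mul h (.ofNat 2)) : ℤ) : k) = (g : k) * ((h : k) * 2) := by
        show ((g * (h * 2) : ℤ) : k) = _
        push_cast; rfl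
      rw [this]; ring
    | false =>
      simp only [cond_false, ih]; ring

/-- adds `g * x_a * (x * y)_b` to the formal polynomial `P` -/
def addL2 (a b : ℕ) (g : ℤ) : List (ℕ × ℕ × ℕ × ℤ) → List (ℕ × ℕ × ℕ × ℤ) → List (ℕ × ℕ × ℕ × ℤ)
  | [], P => P
  | (p, q, r, h) :: L, P =>
    bif Nat.beq r b then insQ a p q (Int.mul g h) (insQ a q p (Int.mul g h) (addL2 a b g L P)) else addL2 a b g L P

theorem evP_addL2 (a b : ℕ) (g : ℤ) (L P : List (ℕ × ℕ × ℕ × ℤ)) :
    evP x y (addL2 a b g L P) = (g : k) * (x a * bl L x y b) + evP x y P := by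
  induction L with
  | nil => simp [addL2, bl]
  | cons s L ih =>
    obtain ⟨p, q, r, h⟩ := s
    simp only [addL2, bl]
    cases Nat.beq r b with
    | true =>
      simp only [cond_true, evP_insQ, ih]
      have : ((Int.mul g h : ℤ) : k) = (g : k) * (h : k) := Int.cast_mul g h
      rw [this]; ring
    | false =>
      simp only [cond_false, ih]; ring

/-- adds `((x * x) * y - x * (x * y))_d` to `P` -/
def addD (d : ℕ) (L0 : List (ℕ × ℕ × ℕ × ℤ)) : List (ℕ × ℕ × ℕ × ℤ) → List (ℕ × ℕ × ℕ × ℤ) → List (ℕ × ℕ × ℕ × ℤ)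
  | [], P => P
  | (a, b, c, g) :: L, P =>
    bif Nat.beq c d then
      addL1 a b g L0 (addL1 b a g L0 (addL2 a b (Int.neg g) L0 (addL2 b a (Int.neg g) L0 (addD d L0 L P))))
    else addD d L0 L P

theorem evP_addD (d : ℕ) (L0 L P : List (ℕ × ℕ × ℕ × ℤ)) :
    evP x y (addD d L0 L P) = bl L (bl L0 x x) y d - bl L x (bl L0 x y) d + evP x y P := by
  induction L with
  | nil => simp [addD, bl]
  | cons s L ih =>
    obtain ⟨a, b, c, g⟩ := s
    simp only [addD, bl]
    cases Nat.beq c d with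
    | true =>
      simp only [cond_true, evP_addL1, evP_addL2, ih]
      have : ((Int.neg g : ℤ) : k) = -(g : k) := Int.cast_neg g
      rw [this]; ring
    | false =>
      simp only [cond_false, ih]; ring

/-- all coefficients are divisible by 3 -/
def all3 : List (ℕ × ℕ × ℕ × ℤ) → Bool
  | [] => true
  | (_, _, _, c) :: L => Nat.beq (Nat.mod (Int.natAbs c) 3) 0 && all3 L

theorem evP_all3 (h3 : (3 : k) = 0) (P : List (ℕ × ℕ × ℕ × ℤ)) (h : all3 P = true) : evP x y P = 0 := by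
  induction P with
  | nil => rfl
  | cons s L ih =>
    obtain ⟨p, q, r, c⟩ := s
    simp only [all3, Bool.and_eq_true, Nat.beq_eq] at h
    simp only [evP, ih h.2]
    have h1 : (3 : ℤ) ∣ c := by
      have : c.natAbs % 3 = 0 := h.1
      omega
    obtain ⟨e, rfl⟩ := h1
    push_cast
    rw [h3]; ring

end pol

/-- the check of the alternative law in all coordinates `d < n` -/
def chk : ℕ → Bool
  | 0 => true
  | n + 1 => all3 (addD n SC SC []) && chk n

theorem chk_ok : chk 49 = true := by decide +kernel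

theorem chk_lt (n : ℕ) (h : chk n = true) (d : ℕ) (hd : d < n) : all3 (addD d SC SC []) = true := by
  induction n with
  | zero => omega
  | succ n ih =>
    simp only [chk, Bool.and_eq_true] at h
    rcases Nat.lt_succ_iff_lt_or_eq.1 hd with h1 | rfl
    · exact ih h.2 h1
    · exact h.1

/-- no structure constant has a third index `≥ 49` -/
theorem SC_lt : ∀ q ∈ SC, q.2.2.1 < 49 := by decide +kernel

theorem bl_big {k : Type} [CommRing k] (x y : ℕ → k) (d : ℕ) (hd : 49 ≤ d) (L : List (ℕ × ℕ × ℕ × ℤ))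
    (hL : ∀ q ∈ L, q.2.2.1 < 49) : bl L x y d = 0 := by
  induction L with
  | nil => rfl
  | cons q L ih =>
    obtain ⟨a, b, c, g⟩ := q
    have h1 : c < 49 := hL _ (List.mem_cons_self ..)
    have h2 : Nat.beq c d = false := by
      cases h : Nat.beq c d with
      | false => rfl
      | true => rw [Nat.beq_eq] at h; omega
    simp only [bl, h2, cond_false, zero_add]
    exact ih (fun q hq => hL q (List.mem_cons_of_mem _ hq))

theorem Al.isAlt {k : Type} [CommRing k] (h3 : (3 : k) = 0) : IsAlt (Al k) := by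
  have hl : ∀ x y : Al k, (x * x) * y = x * (x * y) := by
    intro x y
    funext d
    show bl SC (bl SC x x) y d = bl SC x (bl SC x y) d
    by_cases hd : d < 49
    · have h1 := evP_addD x y d SC SC []
      rw [evP_all3 x y h3 _ (chk_lt 49 chk_ok d hd)] at h1
      have h2 : evP x y [] = 0 := rfl
      rw [h2, add_zero] at h1
      exact (sub_eq_zero.1 h1.symm)
    · rw [bl_big _ _ d (by omega) SC SC_lt, bl_big _ _ d (by omega) SC SC_lt]
  refine ⟨hl, fun x y => ?_⟩
  rw [Al.comm (y * x) x, Al.comm y x, ← hl, Al.comm]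

end Pool.Agent.W2helper35.AltTor
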